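import Pool.Agent.Work.MP_6dc561_nf.I

/-!
# COL (second copy): at most `[F : ℚ]` primes of norm `p`, coloured
-/

set_option autoImplicit false

open NumberField IsDedekindDomain Ideal Polynomial Finset Module

namespace Pool.NF

open Pool.Agent.Work.MP_6dc561_nt
open Pool.DS

theorem p_COL : Stmt_COL := by
  classical
  intro F _ _
  have hd : 0 < finrank ℚ F := finrank_pos
  have key : ∀ p : ℕ, ∃ f : HeightOneSpectrum (𝓞 F) → Fin (finrank ℚ F), ∀ v w,
      BC.ch v = p → BC.ch w = p → f v = f w → v = w := by
    intro p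
    by_cases hp : p.Prime
    · have hfin := BC.primesOver_finite (K := F) (p := p)
      let _ : Fintype ((BC.PZ p).primesOver (𝓞 F)) := Fintype.ofFinite _
      have hc : Fintype.card ((BC.PZ p).primesOver (𝓞 F)) ≤
          Fintype.card (Fin (finrank ℚ F)) := by
        rw [Fintype.card_fin]
        exact AB.card_primesOver_le hp
      obtain ⟨g⟩ := Function.Embedding.nonempty_of_card_le hc
      refine ⟨fun v => if h : BC.ch v = p then g (BC.exists_toH hp h).choose else ⟨0, hd⟩, ?_⟩
      intro v w hv hw h
      simp only [dif_pos hv, dif_pos hw] at h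
      have h2 := g.injective h
      rw [← (BC.exists_toH hp hv).choose_spec, ← (BC.exists_toH hp hw).choose_spec, h2]
    · refine ⟨fun _ => ⟨0, hd⟩, fun v w hv _ _ => ?_⟩
      exact absurd (hv ▸ (BC.ch_spec v).1) hp
  choose f hf using key
  refine ⟨fun v => f (BC.ch v) v, fun v w _ h1 h2 => ?_⟩
  have h3 : BC.ch w = BC.ch v := by
    unfold BC.ch
    rw [h1]
  refine hf (BC.ch v) v w rfl h3 ?_
  simpa only [h3] using h2

end Pool.NF
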