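import Pool.Agent.Work.MP_6dc561_nf.I

/-!
# The character theorem over a number field
-/

set_option autoImplicit false

open NumberField IsDedekindDomain Ideal Polynomial Finset Module

namespace Pool.NF

open Pool.Agent.Work.MP_6dc561_nt
open Pool.Agent.Work.MP_6dc561_nt.AA (goodUpToQ)
open Pool.Agent.Work.MP_6dc561_nt.PS (LipR)
open Pool.Agent.Work.MP_6dc561_nt.AB (InCoset Ch Prim ev ann indCh IsCharOf)
open Pool.DS

namespace CORE

theorem mem_fib {F : Type} [Field F] [NumberField F] {S : Set (HeightOneSpectrum (𝓞 F))} {p : ℕ}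
    {v : HeightOneSpectrum (𝓞 F)} : v ∈ fib S p ↔ v ∉ S ∧ absNorm v.asIdeal = p := by
  classical
  unfold fib
  rw [Finset.mem_filter, mem_upTo]
  constructor
  · rintro ⟨_, h⟩
    exact h
  · intro h
    exact ⟨by rw [h.2], h⟩

theorem prime_of_mem_pr {x p : ℕ} (h : p ∈ pr x) : p.Prime := by
  classical
  unfold pr AA.goodUpToQ at h
  rw [Finset.mem_filter] at h
  exact h.2.1

/-- a bump function -/
noncomputable def bump (a b : ℝ) : ℝ := max 0 (1 - |a| - |b|)

theorem bump_lip {R : ℝ} (hR : 1 ≤ R) : LipR R bump := by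
  refine ⟨fun a b => ?_, fun a b a' b' => ?_, fun a b h => ?_⟩
  · unfold bump
    rw [abs_of_nonneg (le_max_left _ _)]
    refine max_le zero_le_one ?_
    linarith [abs_nonneg a, abs_nonneg b]
  · unfold bump
    refine (abs_max_sub_max_le_max _ _ _ _).trans ?_
    refine max_le ?_ ?_
    · rw [sub_self, abs_zero]
      positivity
    · have e1 : 1 - |a| - |b| - (1 - |a'| - |b'|) = (|a'| - |a|) + (|b'| - |b|) := by ring
      rw [e1]
      refine (abs_add_le _ _).trans ?_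
      have h1 := abs_abs_sub_abs_le_abs_sub a' a
      have h2 := abs_abs_sub_abs_le_abs_sub b' b
      rw [abs_sub_comm a' a] at h1
      rw [abs_sub_comm b' b] at h2
      linarith
  · unfold bump
    apply max_eq_left
    have h1 := abs_nonneg a
    have h2 := abs_nonneg b
    rcases h with h | h <;> linarith

theorem bump_zero : bump 0 0 = 1 := by
  unfold bump
  simp

section

variable {F : Type} [Field F] [NumberField F] (S : Set (HeightOneSpectrum (𝓞 F)))
  (e : HeightOneSpectrum (𝓞 F) → Fin (finrank ℚ F))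

open Classical in
/-- one layer of a function on the primes of degree one -/
noncomputable def lay (T : HeightOneSpectrum (𝓞 F) → ℝ) (out : ℝ) (j : Fin (finrank ℚ F)) (p : ℕ) : ℝ :=
  if h : ∃ v, v ∈ fib S p ∧ e v = j then T h.choose else out

variable {S e}

open Classical in
theorem lay_eq (he : ∀ v w : HeightOneSpectrum (𝓞 F), (absNorm v.asIdeal).Prime →
      absNorm v.asIdeal = absNorm w.asIdeal → e v = e w → v = w) {p : ℕ} (hp : p.Prime)
    (T1 T2 : HeightOneSpectrum (𝓞 F) → ℝ) (out : ℝ) (g : ℝ → ℝ → ℝ) (hg : g out out = 0)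
    (j : Fin (finrank ℚ F)) :
    g (lay S e T1 out j p) (lay S e T2 out j p) =
      ∑ v ∈ (fib S p).filter (fun v => e v = j), g (T1 v) (T2 v) := by
  unfold lay
  by_cases h : ∃ v, v ∈ fib S p ∧ e v = j
  · rw [dif_pos h, dif_pos h]
    have h0 := h.choose_spec
    have h1 : (fib S p).filter (fun v => e v = j) = {h.choose} := by
      ext v
      rw [Finset.mem_filter, Finset.mem_singleton]
      constructor
      · rintro ⟨h2, h3⟩
        refine he v h.choose ?_ ?_ ?_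
        · rw [(mem_fib.1 h2).2]
          exact hp
        · rw [(mem_fib.1 h2).2, (mem_fib.1 h0.1).2]
        · rw [h3, h0.2]
      · rintro rfl
        exact h0
    rw [h1, Finset.sum_singleton]
  · rw [dif_neg h, dif_neg h, hg]
    symm
    apply Finset.sum_eq_zero
    intro v hv
    rw [Finset.mem_filter] at hv
    exact absurd ⟨v, hv⟩ h

theorem sum_lay (he : ∀ v w : HeightOneSpectrum (𝓞 F), (absNorm v.asIdeal).Prime →
      absNorm v.asIdeal = absNorm w.asIdeal → e v = e w → v = w) (x : ℕ)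
    (T1 T2 : HeightOneSpectrum (𝓞 F) → ℝ) (out : ℝ) (g : ℝ → ℝ → ℝ) (hg : g out out = 0)
    (ψ : ℕ → ℂ) :
    ∑ p ∈ pr x, ∑ v ∈ fib S p, (g (T1 v) (T2 v) : ℂ) * ψ (absNorm v.asIdeal) =
      ∑ j : Fin (finrank ℚ F), ∑ p ∈ pr x,
        (g (lay S e T1 out j p) (lay S e T2 out j p) : ℂ) * ψ p := by
  classical
  rw [Finset.sum_comm]
  refine Finset.sum_congr rfl fun p hp => ?_
  have hpp := prime_of_mem_pr hp
  rw [← Finset.sum_fiberwise (fib S p) e]
  refine Finset.sum_congr rfl fun j _ => ?_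
  rw [lay_eq he hpp T1 T2 out g hg j]
  push_cast
  rw [Finset.sum_mul]
  refine Finset.sum_congr rfl fun v hv => ?_
  rw [Finset.mem_filter] at hv
  rw [(mem_fib.1 hv.1).2]

end

end CORE

open CORE in
theorem p_CORE (hGEN : Stmt_GEN) (hCOL : Stmt_COL) (hSUM : Stmt_SUMV) (hDEN : Stmt_DEN) :
    Stmt_CORE := by
  classical
  intro F _ _ S hS t R δ κ hκ hδ h120
  obtain ⟨e, he⟩ := hCOL F
  obtain ⟨B, X, hB1, hX1, hBX⟩ := hDEN F S hS
  have hd1 : 1 ≤ finrank ℚ F := Module.finrank_pos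
  have hd1r : (1 : ℝ) ≤ (finrank ℚ F : ℝ) := by exact_mod_cast hd1
  set d : ℝ := (finrank ℚ F : ℝ) with hd
  set R₁ : ℝ := max R 1 with hR₁
  have hR₁1 : 1 ≤ R₁ := le_max_right _ _
  set out : ℝ := R₁ + 1 with hout
  have hzero : ∀ G : ℝ → ℝ → ℝ, LipR R₁ G → G out out = 0 := by
    intro G hG
    apply hG.supp
    left
    rw [abs_of_pos (by linarith)]
    linarith
  let T1 : Bool → HeightOneSpectrum (𝓞 F) → ℝ := fun b v => if b then (t v).1 else 0
  let T2 : Bool → HeightOneSpectrum (𝓞 F) → ℝ := fun b v => if b then (t v).2 else 0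
  have hne : Nonempty (Fin (finrank ℚ F) × Bool) := ⟨(⟨0, hd1⟩, true)⟩
  obtain ⟨A₀, hA₀1, hA₀⟩ := hGEN (Fin (finrank ℚ F) × Bool) (fun i p => lay S e (T1 i.2) out i.1 p)
    (fun i p => lay S e (T2 i.2) out i.1 p) R₁ δ κ hκ hδ h120
  have hX0 : (0 : ℝ) < X := by exact_mod_cast hX1
  have hXκ : 0 ≤ (X : ℝ) ^ κ := Real.rpow_nonneg hX0.le _
  have hB0 : 0 ≤ B := by linarith
  have hprod : A₀ ≤ 4 * d * B * A₀ := by
    have h1 : (1 : ℝ) ≤ 4 * d * B := by nlinarith
    nlinarith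
  set A : ℝ := 4 * d * B * A₀ + 2 * (X : ℝ) ^ κ with hA
  have hAA : A₀ ≤ A := by rw [hA]; linarith
  refine ⟨A, by linarith, fun Q hQ => ?_⟩
  obtain ⟨E, hE1, hE2, hE3⟩ := hA₀ Q hQ
  have hQ2 : (2 : ℝ) ≤ Q := by exact_mod_cast hQ
  have hQδ : 0 ≤ (Q : ℝ) ^ δ := Real.rpow_nonneg (by linarith) _
  refine ⟨E, hE1.trans (mul_le_mul_of_nonneg_right hAA hQδ), hE2, fun x hx1 hx2 => ?_⟩
  obtain ⟨hx, h⟩ := hE3 x hx1 hx2
  refine ⟨hx, ?_⟩
  have hxr : (1 : ℝ) ≤ x := by exact_mod_cast hx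
  set m : ℝ := min (x : ℝ) Q with hm
  have hm1 : 1 ≤ m := le_min hxr (by linarith)
  have hm0 : 0 < m := by linarith
  have hmκ : 0 < m ^ (-κ) := Real.rpow_pos_of_pos hm0 _
  by_cases hxX : x < X
  · left
    have h1 : m ≤ X := (min_le_left _ _).trans (by exact_mod_cast hxX.le)
    have h2 : (X : ℝ) ^ (-κ) ≤ m ^ (-κ) := Real.rpow_le_rpow_of_nonpos hm0 h1 (by linarith)
    have h3 : 2 * (X : ℝ) ^ κ ≤ A := by
      rw [hA]
      have : 0 ≤ 4 * d * B * A₀ := by positivity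
      linarith
    calc (2 : ℝ) = 2 * (X : ℝ) ^ κ * (X : ℝ) ^ (-κ) := by
          rw [mul_assoc, ← Real.rpow_add hX0, add_neg_cancel, Real.rpow_zero, mul_one]
      _ ≤ A * m ^ (-κ) := mul_le_mul h3 h2 (Real.rpow_nonneg hX0.le _) (by linarith)
  push Not at hxX
  rcases h with h | h
  · left
    exact h.trans (mul_le_mul_of_nonneg_right hAA hmκ.le)
  right
  set η : ℝ := A₀ * m ^ (-κ) with hη
  have hη0 : 0 ≤ η := by positivity
  have hden := hBX x hxX
  set n : ℝ := ((pr x).card : ℝ) with hn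
  set N : ℝ := ((V S x).card : ℝ) with hN
  have hn0 : 0 < n := by rw [hn]; exact_mod_cast h.pos
  have hN0 : 0 < N := by
    by_contra hneg
    push Not at hneg
    have : B * N ≤ 0 := mul_nonpos_of_nonneg_of_nonpos hB0 hneg
    linarith
  have hkey : 4 * d * (η * n) ≤ A * m ^ (-κ) * N := by
    calc 4 * d * (η * n) ≤ 4 * d * (η * (B * N)) := by gcongr
      _ = 4 * d * B * A₀ * m ^ (-κ) * N := by rw [hη]; ring
      _ ≤ A * m ^ (-κ) * N := by
          apply mul_le_mul_of_nonneg_right _ hN0.le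
          apply mul_le_mul_of_nonneg_right _ hmκ.le
          rw [hA]
          linarith
  have hηn : 0 ≤ η * n := by positivity
  have hkey1 : η * n ≤ A * m ^ (-κ) * N := by
    refine le_trans ?_ hkey
    nlinarith
  -- the sum over the primes of `F`
  have hmain : ∀ y ∈ Prim Q, y ∉ E → ∀ (b : Bool) (G : ℝ → ℝ → ℝ), LipR R₁ G →
      ‖∑ v ∈ V S x, (G (T1 b v) (T2 b v) : ℂ) * ev y (absNorm v.asIdeal)‖ ≤ A * m ^ (-κ) * N := by
    intro y hy hyE b G hG
    have h1 := hSUM F S (fun v => (G (T1 b v) (T2 b v) : ℂ) * ev y (absNorm v.asIdeal)) (fun v => by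
      rw [norm_mul, Complex.norm_real, Real.norm_eq_abs]
      exact mul_le_one₀ (hG.le_one _ _) (norm_nonneg _) (AB.ev_norm_le _ _)) x hx
    have h2 : ‖∑ p ∈ pr x, ∑ v ∈ fib S p, (G (T1 b v) (T2 b v) : ℂ) * ev y (absNorm v.asIdeal)‖ ≤
        d * (η * n) := by
      rw [sum_lay he x (T1 b) (T2 b) out G (hzero G hG) (ev y)]
      have h3 := norm_sum_le_of_le (Finset.univ : Finset (Fin (finrank ℚ F)))
        (fun j _ => h.sum (j, b) y hy hyE G hG)
      rw [Finset.sum_const, Finset.card_univ, Fintype.card_fin, nsmul_eq_mul] at h3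
      exact h3
    have h4 : Real.sqrt x ≤ η * n := h.sqrt_le
    have h5 : (3 : ℝ) * d * Real.sqrt x ≤ 3 * d * (η * n) := by gcongr
    refine le_trans ?_ hkey
    calc ‖∑ v ∈ V S x, (G (T1 b v) (T2 b v) : ℂ) * ev y (absNorm v.asIdeal)‖ = ‖(∑ v ∈ V S x, (G (T1 b v) (T2 b v) : ℂ) * ev y (absNorm v.asIdeal) -
          ∑ p ∈ pr x, ∑ v ∈ fib S p, (G (T1 b v) (T2 b v) : ℂ) * ev y (absNorm v.asIdeal)) +
          ∑ p ∈ pr x, ∑ v ∈ fib S p, (G (T1 b v) (T2 b v) : ℂ) * ev y (absNorm v.asIdeal)‖ := by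
          rw [sub_add_cancel]
      _ ≤ 3 * d * (η * n) + d * (η * n) := (norm_add_le _ _).trans (add_le_add (h1.trans h5) h2)
      _ = 4 * d * (η * n) := by ring
  refine ⟨by rw [hN] at hN0; exact_mod_cast hN0, h.log_le.trans hkey1, h.sqrt_le.trans hkey1, fun y hy hyE => ?_,
    fun y hy hyE G hG => ?_⟩
  · have h1 := hmain y hy hyE false bump (bump_lip hR₁1)
    have h2 : ∀ v : HeightOneSpectrum (𝓞 F), bump (T1 false v) (T2 false v) = 1 := fun v => bump_zero
    simp only [h2, Complex.ofReal_one, one_mul] at h1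
    exact h1
  · exact hmain y hy hyE true G (hG.mono (le_max_left _ _))

end Pool.NF
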