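import Pool.Agent.Work.MP_6dc561_nf.I

/-!
# Block COSF (helper58)
-/

set_option autoImplicit false

open NumberField IsDedekindDomain Ideal Polynomial Finset Module

namespace Pool.NF

open Pool.Agent.Work.MP_6dc561_nt
open Pool.Agent.Work.MP_6dc561_nt.AA (goodUpToQ)
open Pool.Agent.Work.MP_6dc561_nt.PS (LipR)
open Pool.Agent.Work.MP_6dc561_nt.AB (InCoset Ch Prim ev ann indCh IsCharOf)
open Pool.DS

theorem COSF_avg {U : Type} (A : Finset U) (F : U → ℝ) (hF : ∀ p ∈ A, |F p| ≤ 1) :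
    |(∑ p ∈ A, F p) / A.card| ≤ 1 := by
  rw [abs_div, Nat.abs_cast]
  apply div_le_one_of_le₀ _ (Nat.cast_nonneg _)
  calc |∑ p ∈ A, F p| ≤ ∑ p ∈ A, |F p| := abs_sum_le_sum_abs _ _
    _ ≤ ∑ p ∈ A, 1 := sum_le_sum hF
    _ = A.card := by simp

theorem p_COSF (hG : Stmt_COSG) (hW : Stmt_WB) : Stmt_COSF := by
  classical
  intro F _ _ S t R Q E x η hη h q _ hqQ H hY a G hLip
  have hidx : 1 ≤ (H.index : ℝ) := by
    have : 1 ≤ H.index := by
      rw [← AB.card_ann]
      refine card_pos.2 ⟨1, ?_⟩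
      rw [AB.mem_ann]
      intro u _
      exact MulChar.one_apply_coe u
    exact_mod_cast this
  have hidx0 : (0 : ℝ) < H.index := by linarith
  have hd1 : 1 ≤ (finrank ℚ F : ℝ) := by
    have : 0 < finrank ℚ F := finrank_pos
    exact_mod_cast this
  obtain ⟨g, hg⟩ : ∃ g : HeightOneSpectrum (𝓞 F) → ℝ, g = fun v => G (t v).1 (t v).2 := ⟨_, rfl⟩
  have hg1 : ∀ v, |g v| ≤ 1 := fun v => by
    rw [hg]
    exact hLip.le_one _ _
  rw [← hg]
  rcases h with h | h
  · have a1 : |cosAvg S H a g x| ≤ 1 := by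
      unfold cosAvg
      exact COSF_avg _ _ fun v _ => hg1 v
    have a2 : |avg S g x| ≤ 1 := by
      unfold avg
      exact COSF_avg _ _ fun v _ => hg1 v
    have a3 := abs_sub (cosAvg S H a g x) (avg S g x)
    have a4 : 1 ≤ (finrank ℚ F : ℝ) * H.index := by nlinarith
    nlinarith
  obtain ⟨N, hN⟩ : ∃ N : ℝ, N = ((V S x).card : ℝ) := ⟨_, rfl⟩
  have hN0 : 0 < N := by rw [hN]; exact_mod_cast h.pos
  have hηN : 0 ≤ η * N := by positivity
  have hq1 : 1 ≤ q := Nat.one_le_iff_ne_zero.2 (NeZero.ne q)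
  have hlog : 2 * Real.log q ≤ η * N := by
    have h1 : Real.log q ≤ Real.log Q := Real.log_le_log (by exact_mod_cast hq1) (by exact_mod_cast hqQ)
    have h2 := h.log_le
    rw [← hN] at h2
    linarith
  have hWB := hW F S q x
  have hWB' : (((V S x).filter (fun v => ¬ (absNorm v.asIdeal).Coprime q)).card : ℝ) ≤ finrank ℚ F * (η * N) :=
    hWB.trans (mul_le_mul_of_nonneg_left hlog (by linarith))
  have b1 := hG (HeightOneSpectrum (𝓞 F)) (V S x) (fun v => absNorm v.asIdeal) g q Q E (η * N)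
    (finrank ℚ F * (η * N)) H a hg1 hqQ hηN
    (fun y hy hyE => by
      have := h.sum y hy hyE G hLip
      rw [← hN] at this
      rw [hg]
      exact this) hWB' hY
  have b2 := hG (HeightOneSpectrum (𝓞 F)) (V S x) (fun v => absNorm v.asIdeal) (fun _ => 1) q Q E (η * N)
    (finrank ℚ F * (η * N)) H a (fun _ => by rw [abs_one]) hqQ hηN
    (fun y hy hyE => by
      have := h.one_sum y hy hyE
      rw [← hN] at this
      simpa using this) hWB' hY
  have e1 : ∑ p ∈ V S x, (1 : ℝ) = N := by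
    rw [sum_const, nsmul_eq_mul, mul_one, hN]
  have e2 : ∑ v ∈ (V S x).filter (fun v => InCoset H a (absNorm v.asIdeal)), (1 : ℝ) =
      ((V S x).filter (fun v => InCoset H a (absNorm v.asIdeal))).card := by
    rw [sum_const, nsmul_eq_mul, mul_one]
  rw [e1, e2] at b2
  obtain ⟨Sa, hSa⟩ : ∃ Sa : ℝ, Sa = ∑ v ∈ (V S x).filter (fun v => InCoset H a (absNorm v.asIdeal)), g v := ⟨_, rfl⟩
  obtain ⟨Na, hNa⟩ : ∃ Na : ℝ, Na = (((V S x).filter (fun v => InCoset H a (absNorm v.asIdeal))).card : ℝ) := ⟨_, rfl⟩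
  rw [← hSa] at b1
  rw [← hNa] at b2
  have hSN : |∑ v ∈ V S x, g v| ≤ N := by
    calc |∑ v ∈ V S x, g v| ≤ ∑ v ∈ V S x, |g v| := abs_sum_le_sum_abs _ _
      _ ≤ ∑ v ∈ V S x, 1 := sum_le_sum fun p _ => hg1 _
      _ = N := e1
  have hSaN : |Sa| ≤ Na := by
    rw [hSa, hNa]
    calc |∑ v ∈ (V S x).filter (fun v => InCoset H a (absNorm v.asIdeal)), g v|
        ≤ ∑ v ∈ (V S x).filter (fun v => InCoset H a (absNorm v.asIdeal)), |g v| := abs_sum_le_sum_abs _ _
      _ ≤ ∑ v ∈ (V S x).filter (fun v => InCoset H a (absNorm v.asIdeal)), 1 := sum_le_sum fun p _ => hg1 _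
      _ = _ := e2
  have hT : (H.index : ℝ) * (η * N + finrank ℚ F * (η * N)) ≤ 2 * finrank ℚ F * H.index * η * N := by
    have h1 : η * N ≤ finrank ℚ F * (η * N) := by nlinarith
    calc (H.index : ℝ) * (η * N + finrank ℚ F * (η * N))
        ≤ H.index * (finrank ℚ F * (η * N) + finrank ℚ F * (η * N)) :=
          mul_le_mul_of_nonneg_left (by linarith) hidx0.le
      _ = _ := by ring
  have hNa0 : 0 ≤ Na := by rw [hNa]; exact Nat.cast_nonneg _
  have key := AB.ratio (S' := H.index * Sa) (N' := H.index * Na) (S := ∑ v ∈ V S x, g v)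
    (N := N) (ε := 2 * finrank ℚ F * H.index * η) hN0 (by positivity) hSN (by
      rw [abs_mul, Nat.abs_cast]
      exact mul_le_mul_of_nonneg_left hSaN hidx0.le) (b1.trans hT) (b2.trans hT)
  have e3 : cosAvg S H a g x = H.index * Sa / (H.index * Na) := by
    rw [mul_div_mul_left _ _ hidx0.ne', hSa, hNa]
    rfl
  have e4 : avg S g x = (∑ v ∈ V S x, g v) / N := by
    rw [hN]
    rfl
  rw [e3, e4]
  exact key.trans (le_of_eq (by ring))

end Pool.NF
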