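import Pool.Agent.Work.MP_6dc561_nf.I

/-!
# Block COSG (helper58)
-/

set_option autoImplicit false

open NumberField IsDedekindDomain Ideal Polynomial Finset Module

namespace Pool.NF

open Pool.Agent.Work.MP_6dc561_nt
open Pool.Agent.Work.MP_6dc561_nt.AA (goodUpToQ)
open Pool.Agent.Work.MP_6dc561_nt.PS (LipR)
open Pool.Agent.Work.MP_6dc561_nt.AB (InCoset Ch Prim ev ann indCh IsCharOf)
open Pool.DS

open Classical in
/-- imprimitive characters -/
theorem COSG_imprim {U : Type} (A : Finset U) (N : U → ℕ) (g : U → ℝ) {q : ℕ} (hg : ∀ u, |g u| ≤ 1)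
    (χ : DirichletCharacter ℂ q) (ψ : ℕ → ℂ) (hψ : ∀ n, ‖ψ n‖ ≤ 1)
    (hχψ : ∀ n, n.Coprime q → ψ n = χ (n : ZMod q)) :
    ‖∑ u ∈ A, (g u : ℂ) * χ (N u : ZMod q) - ∑ u ∈ A, (g u : ℂ) * ψ (N u)‖ ≤
      (A.filter (fun u => ¬ (N u).Coprime q)).card := by
  rw [← sum_sub_distrib]
  have h1 : ∀ u ∈ A, ‖(g u : ℂ) * χ (N u : ZMod q) - (g u : ℂ) * ψ (N u)‖ ≤
      if ¬ (N u).Coprime q then (1 : ℝ) else 0 := by
    intro u _
    by_cases h : (N u).Coprime q
    · rw [if_neg (not_not.2 h), hχψ _ h, sub_self, norm_zero]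
    · rw [if_pos h, AB.apply_eq_zero χ h, mul_zero, zero_sub, norm_neg, norm_mul, Complex.norm_real,
        Real.norm_eq_abs]
      exact mul_le_one₀ (hg u) (norm_nonneg _) (hψ _)
  refine (norm_sum_le_of_le _ h1).trans (le_of_eq ?_)
  rw [← sum_filter, sum_const, nsmul_eq_mul, mul_one]

theorem p_COSG : Stmt_COSG := by
  classical
  intro U A N g q Q _ E T W H a hg hqQ hT hs hWc hY
  have hW0 : 0 ≤ W := (Nat.cast_nonneg _).trans hWc
  have h1 : ((H.index * ∑ u ∈ A.filter (fun u => InCoset H a (N u)), g u - ∑ u ∈ A, g u : ℝ) : ℂ) =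
      (∑ χ ∈ (ann H).erase 1, χ ((a⁻¹ : (ZMod q)ˣ) : ZMod q) *
        ∑ u ∈ A, (g u : ℂ) * χ (N u : ZMod q)) +
      (∑ u ∈ A, (g u : ℂ) * (1 : DirichletCharacter ℂ q) (N u : ZMod q) -
        ∑ u ∈ A, (g u : ℂ) * 1) := by
    have h2 : (((H.index : ℝ) * ∑ u ∈ A.filter (fun u => InCoset H a (N u)), g u : ℝ) : ℂ) =
        ∑ χ ∈ ann H, χ ((a⁻¹ : (ZMod q)ˣ) : ZMod q) *
          ∑ u ∈ A, (g u : ℂ) * χ (N u : ZMod q) := by
      push_cast
      rw [sum_filter, mul_sum]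
      have h3 : ∀ χ ∈ ann H, χ ((a⁻¹ : (ZMod q)ˣ) : ZMod q) *
          ∑ u ∈ A, (g u : ℂ) * χ (N u : ZMod q) =
          ∑ u ∈ A, (g u : ℂ) * (χ ((a⁻¹ : (ZMod q)ˣ) : ZMod q) * χ (N u : ZMod q)) := by
        intro χ _
        rw [mul_sum]
        exact sum_congr rfl fun p _ => by ring
      rw [sum_congr rfl h3, sum_comm]
      refine sum_congr rfl fun p _ => ?_
      rw [← mul_sum, AB.sum_coset]
      split_ifs
      · ring
      · ring
    have h4 : (1 : DirichletCharacter ℂ q) ∈ ann H := by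
      rw [AB.mem_ann]
      intro u _
      exact MulChar.one_apply_coe u
    rw [Complex.ofReal_sub, h2, ← add_sum_erase _ _ h4, MulChar.one_apply_coe, one_mul]
    push_cast
    simp only [mul_one]
    ring
  have hnorm : ‖((H.index * ∑ u ∈ A.filter (fun u => InCoset H a (N u)), g u - ∑ u ∈ A, g u : ℝ) : ℂ)‖ ≤
      H.index * (T + W) := by
    rw [h1]
    have h5 : ∀ χ ∈ (ann H).erase 1, ‖χ ((a⁻¹ : (ZMod q)ˣ) : ZMod q) *
        ∑ u ∈ A, (g u : ℂ) * χ (N u : ZMod q)‖ ≤ T + W := by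
      intro χ hχ
      rw [mem_erase] at hχ
      have h6 := COSG_imprim A N g hg χ (ev (indCh χ)) (AB.ev_norm_le _) fun n hn => AB.ev_indCh χ hn
      have h7 := hs _ (AB.indCh_mem_Prim hχ.1 hqQ) (hY χ hχ.2 hχ.1)
      have h8 : ‖∑ u ∈ A, (g u : ℂ) * χ (N u : ZMod q)‖ ≤ T + W := by
        calc ‖∑ u ∈ A, (g u : ℂ) * χ (N u : ZMod q)‖
            = ‖(∑ u ∈ A, (g u : ℂ) * χ (N u : ZMod q) -
                ∑ u ∈ A, (g u : ℂ) * ev (indCh χ) (N u)) +
                ∑ u ∈ A, (g u : ℂ) * ev (indCh χ) (N u)‖ := by rw [sub_add_cancel]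
          _ ≤ W + T := (norm_add_le _ _).trans (add_le_add (h6.trans hWc) h7)
          _ = T + W := add_comm _ _
      rw [norm_mul]
      calc ‖χ ((a⁻¹ : (ZMod q)ˣ) : ZMod q)‖ *
          ‖∑ u ∈ A, (g u : ℂ) * χ (N u : ZMod q)‖ ≤ 1 * (T + W) :=
            mul_le_mul (χ.norm_le_one _) h8 (norm_nonneg _) zero_le_one
        _ = T + W := one_mul _
    have h9 := norm_sum_le_of_le _ h5
    rw [sum_const, nsmul_eq_mul] at h9
    have h10 := COSG_imprim A N g hg (1 : DirichletCharacter ℂ q) (fun _ => 1)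
      (fun _ => by rw [norm_one]) (fun n hn => by
        have : IsUnit (n : ZMod q) := (ZMod.isUnit_iff_coprime n q).2 hn
        rw [MulChar.one_apply this])
    have h4 : (1 : DirichletCharacter ℂ q) ∈ ann H := by
      rw [AB.mem_ann]
      intro u _
      exact MulChar.one_apply_coe u
    have h11 : (((ann H).erase 1).card : ℝ) + 1 = H.index := by
      rw [card_erase_of_mem h4, AB.card_ann]
      have : 1 ≤ H.index := by
        rw [← AB.card_ann]
        exact card_pos.2 ⟨1, h4⟩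
      rw [Nat.cast_sub this]
      push_cast
      ring
    refine (norm_add_le _ _).trans ?_
    calc _ ≤ (((ann H).erase 1).card : ℝ) * (T + W) + W := add_le_add h9 (h10.trans hWc)
      _ ≤ (((ann H).erase 1).card : ℝ) * (T + W) + (T + W) := by linarith
      _ = _ := by rw [← h11]; ring
  rwa [Complex.norm_real, Real.norm_eq_abs] at hnorm

end Pool.NF
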