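import Pool.Agent.Work.MP_6dc561_nf.I
import Pool.Agent.Work.MP_6dc561_ds.All

/-!
# Block DEN (helper60): the number of primes of a number field
-/

set_option autoImplicit false

open NumberField IsDedekindDomain Ideal Polynomial Finset Module Filter Topology

namespace Pool.NF

open Pool.Agent.Work.MP_6dc561_nt
open Pool.Agent.Work.MP_6dc561_nt.AA (goodUpToQ)
open Pool.DS

theorem DEN_pr (x : ℕ) : (pr x).card ≤ Nat.primeCounting x := by
  classical
  rw [Nat.primeCounting, Nat.primeCounting', Nat.count_eq_card_filter_range]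
  refine Finset.card_le_card fun p hp => ?_
  rw [pr, goodUpToQ, Finset.mem_filter, Finset.mem_Icc] at hp
  rw [Finset.mem_filter, Finset.mem_range]
  exact ⟨by omega, hp.2.1⟩

theorem DEN_V {F : Type} [Field F] [NumberField F] (S : Set (HeightOneSpectrum (𝓞 F)))
    (hS : S.Finite) (x : ℕ) : (upTo F x).card ≤ (V S x).card + hS.toFinset.card := by
  classical
  refine le_trans (Finset.card_le_card (t := V S x ∪ hS.toFinset) fun v hv => ?_)
    (Finset.card_union_le _ _)
  by_cases h : v ∈ S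
  · exact Finset.mem_union_right _ (hS.mem_toFinset.2 h)
  · exact Finset.mem_union_left _ (by
      rw [V, Finset.mem_filter]
      exact ⟨hv, h⟩)

theorem p_DEN : Stmt_DEN := by
  intro F _ _ S hS
  obtain ⟨s, hs⟩ : ∃ s : ℕ, s = hS.toFinset.card := ⟨_, rfl⟩
  have e1 := Chebyshev.eventually_primeCounting_le (ε := 1 / 2) (by norm_num)
  have hl4 : Real.log 4 < 3 / 2 := by
    have h : Real.log 4 = 2 * Real.log 2 := by
      rw [show (4 : ℝ) = 2 ^ 2 by norm_num, Real.log_pow]
      norm_num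
    have := Real.log_two_lt_d9
    rw [h]
    linarith
  have e2 := (pit_all F).eventually_const_lt (show (1 / 2 : ℝ) < 1 by norm_num)
  have e3 := (Real.isLittleO_log_id_atTop).bound (c := 1 / (4 * (s : ℝ) + 1)) (by positivity)
  have e4 : ∀ᶠ x : ℝ in atTop, 1 < x := eventually_gt_atTop 1
  obtain ⟨a, ha⟩ := eventually_atTop.1 (e1.and (e2.and (e3.and e4)))
  refine ⟨8, max 1 ⌈a⌉₊, by norm_num, le_max_left _ _, fun x hx => ?_⟩
  have hxa : a ≤ (x : ℝ) := (Nat.le_ceil a).trans (by exact_mod_cast (le_max_right _ _).trans hx)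
  obtain ⟨h1, h2, h3, h4⟩ := ha x hxa
  have hlog : 0 < Real.log x := Real.log_pos h4
  have hx0 : (0 : ℝ) < x := by linarith
  rw [Nat.floor_natCast] at h1
  rw [id, Real.norm_of_nonneg hlog.le, Real.norm_of_nonneg hx0.le] at h3
  obtain ⟨L, hL⟩ : ∃ L : ℝ, L = x / Real.log x := ⟨_, rfl⟩
  have hL0 : 0 < L := by
    rw [hL]
    positivity
  have h1' : (Nat.primeCounting x : ℝ) ≤ 2 * L := by
    refine h1.trans ?_
    rw [mul_div_assoc, ← hL]
    exact mul_le_mul_of_nonneg_right (by linarith) hL0.le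
  have h5 : 1 / 2 * L < ((upTo F x).card : ℝ) := by
    have e : ((upTo F x).card : ℝ) * Real.log x / x = ((upTo F x).card : ℝ) / L := by
      rw [hL]
      field_simp
    rw [e, lt_div_iff₀ hL0] at h2
    exact h2
  have h6 : 4 * (s : ℝ) + 1 ≤ L := by
    rw [hL, le_div_iff₀ hlog]
    have h7 : (4 * (s : ℝ) + 1) * Real.log x ≤ (4 * (s : ℝ) + 1) * (1 / (4 * (s : ℝ) + 1) * x) :=
      mul_le_mul_of_nonneg_left h3 (by positivity)
    refine h7.trans (le_of_eq ?_)
    field_simp
  have h8 : ((upTo F x).card : ℝ) ≤ ((V S x).card : ℝ) + s := by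
    rw [hs]
    exact_mod_cast DEN_V S hS x
  have h9 : ((pr x).card : ℝ) ≤ (Nat.primeCounting x : ℝ) := by exact_mod_cast DEN_pr x
  linarith

end Pool.NF
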