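import Pool.Agent.Work.MP_6dc561_nf.I2
import Pool.Agent.Work.MP_6dc561_nf.B_COSG

/-!
# Block FLDX (helper58)
-/

set_option autoImplicit false

open NumberField IsDedekindDomain Ideal Polynomial Finset Module

namespace Pool.NF

open Pool.Agent.Work.MP_6dc561_nt
open Pool.Agent.Work.MP_6dc561_nt.AA (goodUpToQ)
open Pool.Agent.Work.MP_6dc561_nt.PS (LipR)
open Pool.Agent.Work.MP_6dc561_nt.AB (InCoset Ch Prim ev ann indCh IsCharOf)
open Pool.DS

open Classical in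
theorem FLDX_one (F K : Type) [Field F] [NumberField F] [Field K] [NumberField K] [Algebra F K]
    (S : Set (HeightOneSpectrum (𝓞 F))) (x : ℕ) (h : HeightOneSpectrum (𝓞 K) → ℝ)
    (g : HeightOneSpectrum (𝓞 F) → ℝ) (hh : ∀ w, |h w| ≤ 1)
    (hhg : ∀ w, absNorm w.asIdeal = absNorm (below F w).asIdeal → h w = g (below F w)) :
    |∑ w ∈ (upTo K x).filter (fun w => below F w ∉ S), h w - ∑ v ∈ V S x, (degOne F K v : ℝ) * g v| ≤
      finrank ℚ K * Real.sqrt x := by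
  have e1 : ∑ w ∈ (upTo K x).filter (fun w => below F w ∉ S), h w =
      ∑ w ∈ upTo K x, (if below F w ∉ S then h w else 0) := by
    rw [sum_filter]
  have e2 : ∑ v ∈ V S x, (degOne F K v : ℝ) * g v =
      ∑ v ∈ upTo F x, (degOne F K v : ℝ) * (if v ∉ S then g v else 0) := by
    unfold V
    rw [sum_filter]
    refine sum_congr rfl fun v _ => ?_
    by_cases hv : v ∉ S
    · rw [if_pos hv, if_pos hv]
    · rw [if_neg hv, if_neg hv, mul_zero]
  rw [e1, e2, DG1.sum_group, sum_filter, ← sum_sub_distrib]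
  have hb : ∀ w ∈ upTo K x, |(if below F w ∉ S then h w else 0) -
      (if absNorm w.asIdeal = absNorm (below F w).asIdeal then
        (if below F w ∉ S then g (below F w) else 0) else 0)| ≤
      if ¬ absNorm w.asIdeal = absNorm (below F w).asIdeal then (1 : ℝ) else 0 := by
    intro w _
    by_cases h1 : absNorm w.asIdeal = absNorm (below F w).asIdeal
    · rw [if_pos h1, if_neg (not_not.2 h1), hhg w h1, sub_self, abs_zero]
    · rw [if_neg h1, if_pos h1, sub_zero]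
      by_cases h2 : below F w ∉ S
      · rw [if_pos h2]
        exact hh w
      · rw [if_neg h2, abs_zero]
        exact zero_le_one
  refine (abs_sum_le_sum_abs _ _).trans ((sum_le_sum hb).trans ?_)
  rw [← sum_filter, sum_const, nsmul_eq_mul, mul_one]
  exact DG1.bad_card F K x (Nat.cast_nonneg _) _ (fun w hw => mem_filter.mp hw)

open Classical in
theorem FLDX_two (hN : Stmt_NPR) (hW : Stmt_WB) (F K : Type) [Field F] [NumberField F] [Field K] [NumberField K]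
    [Algebra F K] (S : Set (HeightOneSpectrum (𝓞 F))) {Q : ℕ} {E : Finset Ch} {x : ℕ} {T : ℝ} (hT : 0 ≤ T)
    {q : ℕ} [NeZero q] (hqQ : q ≤ Q) {Θ : Type} [Fintype Θ] {χ : Θ → DirichletCharacter ℂ q} {θ₀ : Θ}
    (hLaw : Law F K q Θ χ θ₀) (hE : ∀ θ, θ ≠ θ₀ → χ θ ≠ 1 ∧ indCh (χ θ) ∉ E)
    (g : HeightOneSpectrum (𝓞 F) → ℝ) (hg : ∀ v, |g v| ≤ 1) (hsq : Real.sqrt x ≤ T) (hlog : 2 * Real.log q ≤ T)
    (hsum : ∀ y ∈ Prim Q, y ∉ E → ‖∑ v ∈ V S x, (g v : ℂ) * ev y (absNorm v.asIdeal)‖ ≤ T) :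
    |∑ v ∈ V S x, (degOne F K v : ℝ) * g v - ∑ v ∈ V S x, g v| ≤ 6 * (finrank ℚ F * finrank F K) * T := by
  obtain ⟨hχ0, hcard, hlaw⟩ := hLaw
  obtain ⟨d, hd⟩ : ∃ d : ℝ, d = (finrank ℚ F : ℝ) := ⟨_, rfl⟩
  obtain ⟨n, hn⟩ : ∃ n : ℝ, n = (finrank F K : ℝ) := ⟨_, rfl⟩
  have hd1 : 1 ≤ d := by
    have : 0 < finrank ℚ F := finrank_pos
    rw [hd]
    exact_mod_cast this
  have hΘ1 : 1 ≤ Fintype.card Θ := Fintype.card_pos_iff.2 ⟨θ₀⟩
  have hn1 : 1 ≤ n := by
    rw [hn, ← hcard]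
    exact_mod_cast hΘ1
  rw [← hd, ← hn]
  -- the primes which are not coprime to `q`
  have hwb : (((V S x).filter (fun v => ¬ (absNorm v.asIdeal).Coprime q)).card : ℝ) ≤ d * T := by
    refine (hW F S q x).trans ?_
    rw [← hd]
    exact mul_le_mul_of_nonneg_left hlog (by linarith)
  have hnp : (((upTo F x).filter (fun v => ¬ (absNorm v.asIdeal).Prime)).card : ℝ) ≤ d * T := by
    refine (hN F x).trans ?_
    rw [← hd]
    exact mul_le_mul_of_nonneg_left hsq (by linarith)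
  have hbad : (((V S x).filter (fun v => ¬ ((absNorm v.asIdeal).Prime ∧ (absNorm v.asIdeal).Coprime q))).card : ℝ) ≤
      2 * d * T := by
    have h1 : (V S x).filter (fun v => ¬ ((absNorm v.asIdeal).Prime ∧ (absNorm v.asIdeal).Coprime q)) ⊆
        (upTo F x).filter (fun v => ¬ (absNorm v.asIdeal).Prime) ∪
          (V S x).filter (fun v => ¬ (absNorm v.asIdeal).Coprime q) := by
      intro v hv
      rw [mem_filter] at hv
      rw [mem_union, mem_filter, mem_filter]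
      by_cases h2 : (absNorm v.asIdeal).Prime
      · exact Or.inr ⟨hv.1, fun h3 => hv.2 ⟨h2, h3⟩⟩
      · refine Or.inl ⟨?_, h2⟩
        have h4 := hv.1
        unfold V at h4
        exact (mem_filter.1 h4).1
    have h2 := (card_le_card h1).trans (card_union_le _ _)
    have h3 : (((V S x).filter (fun v => ¬ ((absNorm v.asIdeal).Prime ∧ (absNorm v.asIdeal).Coprime q))).card : ℝ) ≤
        (((upTo F x).filter (fun v => ¬ (absNorm v.asIdeal).Prime)).card : ℝ) +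
          (((V S x).filter (fun v => ¬ (absNorm v.asIdeal).Coprime q)).card : ℝ) := by
      exact_mod_cast h2
    linarith
  -- the identity
  obtain ⟨D, hD⟩ : ∃ D : HeightOneSpectrum (𝓞 F) → ℂ, D = fun v => (degOne F K v : ℂ) -
      ∑ θ : Θ, χ θ (absNorm v.asIdeal : ZMod q) := ⟨_, rfl⟩
  have hid : ((∑ v ∈ V S x, (degOne F K v : ℝ) * g v - ∑ v ∈ V S x, g v : ℝ) : ℂ) =
      ∑ v ∈ V S x, D v * g v +
        (∑ θ ∈ univ.erase θ₀, ∑ v ∈ V S x, (g v : ℂ) * χ θ (absNorm v.asIdeal : ZMod q) +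
        (∑ v ∈ V S x, (g v : ℂ) * χ θ₀ (absNorm v.asIdeal : ZMod q) - ∑ v ∈ V S x, (g v : ℂ) * 1)) := by
    have h1 : ∑ v ∈ V S x, D v * g v = ∑ v ∈ V S x, (degOne F K v : ℂ) * g v -
        ∑ θ : Θ, ∑ v ∈ V S x, (g v : ℂ) * χ θ (absNorm v.asIdeal : ZMod q) := by
      rw [sum_comm, ← sum_sub_distrib]
      refine sum_congr rfl fun v _ => ?_
      rw [hD, ← mul_sum]
      ring
    rw [h1, ← add_sum_erase _ _ (mem_univ θ₀)]
    push_cast
    simp only [mul_one]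
    ring
  -- the three parts
  have w1 : ‖∑ v ∈ V S x, D v * g v‖ ≤ 4 * d * n * T := by
    have hb : ∀ v ∈ V S x, ‖D v * g v‖ ≤
        if ¬ ((absNorm v.asIdeal).Prime ∧ (absNorm v.asIdeal).Coprime q) then 2 * n else 0 := by
      intro v _
      by_cases h1 : (absNorm v.asIdeal).Prime ∧ (absNorm v.asIdeal).Coprime q
      · rw [if_neg (not_not.2 h1), hD]
        simp only []
        rw [hlaw v h1.1 h1.2, sub_self, zero_mul, norm_zero]
      · rw [if_pos h1, norm_mul, Complex.norm_real, Real.norm_eq_abs]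
        have h2 : ‖D v‖ ≤ 2 * n := by
          rw [hD]
          refine (norm_sub_le _ _).trans ?_
          have h3 : ‖(degOne F K v : ℂ)‖ ≤ n := by
            rw [Complex.norm_natCast, hn]
            exact_mod_cast (stmt_DGB F K v).2.2.1
          have h4 : ‖∑ θ : Θ, χ θ (absNorm v.asIdeal : ZMod q)‖ ≤ n := by
            refine (norm_sum_le_of_le _ fun θ _ => (χ θ).norm_le_one _).trans ?_
            rw [sum_const, nsmul_eq_mul, mul_one, card_univ, hcard, hn]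
          linarith
        calc ‖D v‖ * |g v| ≤ (2 * n) * 1 := mul_le_mul h2 (hg v) (abs_nonneg _) (by linarith)
          _ = 2 * n := mul_one _
    refine (norm_sum_le_of_le _ hb).trans ?_
    rw [← sum_filter, sum_const, nsmul_eq_mul]
    calc _ ≤ (2 * d * T) * (2 * n) := mul_le_mul_of_nonneg_right hbad (by linarith)
      _ = 4 * d * n * T := by ring
  have w2 : ‖∑ θ ∈ univ.erase θ₀, ∑ v ∈ V S x, (g v : ℂ) * χ θ (absNorm v.asIdeal : ZMod q)‖ ≤
      (n - 1) * (T + d * T) := by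
    have hb : ∀ θ ∈ univ.erase θ₀, ‖∑ v ∈ V S x, (g v : ℂ) * χ θ (absNorm v.asIdeal : ZMod q)‖ ≤ T + d * T := by
      intro θ hθ
      obtain ⟨k1, k2⟩ := hE θ (mem_erase.1 hθ).1
      have h6 := COSG_imprim (V S x) (fun v => absNorm v.asIdeal) g hg (χ θ) (ev (indCh (χ θ))) (AB.ev_norm_le _)
        fun m hm => AB.ev_indCh (χ θ) hm
      have h7 := hsum _ (AB.indCh_mem_Prim k1 hqQ) k2
      calc ‖∑ v ∈ V S x, (g v : ℂ) * χ θ (absNorm v.asIdeal : ZMod q)‖
          = ‖(∑ v ∈ V S x, (g v : ℂ) * χ θ (absNorm v.asIdeal : ZMod q) -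
              ∑ v ∈ V S x, (g v : ℂ) * ev (indCh (χ θ)) (absNorm v.asIdeal)) +
              ∑ v ∈ V S x, (g v : ℂ) * ev (indCh (χ θ)) (absNorm v.asIdeal)‖ := by rw [sub_add_cancel]
        _ ≤ d * T + T := (norm_add_le _ _).trans (add_le_add (h6.trans hwb) h7)
        _ = T + d * T := add_comm _ _
    refine (norm_sum_le_of_le _ hb).trans (le_of_eq ?_)
    rw [sum_const, nsmul_eq_mul, card_erase_of_mem (mem_univ _), card_univ, Nat.cast_sub hΘ1, hcard, hn]
    push_cast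
    ring
  have w3 : ‖∑ v ∈ V S x, (g v : ℂ) * χ θ₀ (absNorm v.asIdeal : ZMod q) - ∑ v ∈ V S x, (g v : ℂ) * 1‖ ≤ d * T := by
    have h10 := COSG_imprim (V S x) (fun v => absNorm v.asIdeal) g hg (χ θ₀) (fun _ => 1)
      (fun _ => by rw [norm_one]) (fun m hm => by
        have : IsUnit (m : ZMod q) := (ZMod.isUnit_iff_coprime m q).2 hm
        rw [hχ0, MulChar.one_apply this])
    exact h10.trans hwb
  have hnorm : ‖((∑ v ∈ V S x, (degOne F K v : ℝ) * g v - ∑ v ∈ V S x, g v : ℝ) : ℂ)‖ ≤ 6 * (d * n) * T := by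
    rw [hid]
    refine (norm_add_le _ _).trans ?_
    have h1 := norm_add_le (∑ θ ∈ univ.erase θ₀, ∑ v ∈ V S x, (g v : ℂ) * χ θ (absNorm v.asIdeal : ZMod q))
      (∑ v ∈ V S x, (g v : ℂ) * χ θ₀ (absNorm v.asIdeal : ZMod q) - ∑ v ∈ V S x, (g v : ℂ) * 1)
    have h2 : (n - 1) * (T + d * T) ≤ (n - 1) * (2 * (d * T)) := by
      refine mul_le_mul_of_nonneg_left ?_ (by linarith)
      nlinarith
    have h3 : 0 ≤ d * T := by positivity
    nlinarith
  rwa [Complex.norm_real, Real.norm_eq_abs] at hnorm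

open Classical in
theorem p_FLDX (hN : Stmt_NPR) (hW : Stmt_WB) : Stmt_FLDX := by
  intro F K _ _ _ _ _ S t R Q E x η hη hgood q _ hqQ Θ _ χ θ₀ hLaw hE G hLip h hh hhg
  obtain ⟨d, hd⟩ : ∃ d : ℝ, d = (finrank ℚ F : ℝ) := ⟨_, rfl⟩
  obtain ⟨n, hn⟩ : ∃ n : ℝ, n = (finrank F K : ℝ) := ⟨_, rfl⟩
  have hd1 : 1 ≤ d := by
    have : 0 < finrank ℚ F := finrank_pos
    rw [hd]
    exact_mod_cast this
  have hn1 : 1 ≤ n := by
    rw [hn, ← hLaw.2.1]
    exact_mod_cast Fintype.card_pos_iff.2 ⟨θ₀⟩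
  have hdn : 1 ≤ d * n := by nlinarith
  have hKd : (finrank ℚ K : ℝ) = d * n := by
    have h1 : finrank ℚ F * finrank F K = finrank ℚ K := finrank_mul_finrank ℚ F K
    rw [← h1, hd, hn]
    push_cast
    rfl
  have hsum1 : ∀ {U : Type} (A : Finset U) (g : U → ℝ), (∀ u, |g u| ≤ 1) → |∑ u ∈ A, g u| ≤ A.card := by
    intro U A g hg
    calc |∑ u ∈ A, g u| ≤ ∑ u ∈ A, |g u| := abs_sum_le_sum_abs _ _
      _ ≤ ∑ _u ∈ A, (1 : ℝ) := sum_le_sum fun u _ => hg u
      _ = A.card := by rw [sum_const, nsmul_eq_mul, mul_one]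
  have havg1 : ∀ {U : Type} (A : Finset U) (g : U → ℝ), (∀ u, |g u| ≤ 1) → |(∑ u ∈ A, g u) / (A.card : ℝ)| ≤ 1 := by
    intro U A g hg
    rw [abs_div, Nat.abs_cast]
    exact div_le_one_of_le₀ (hsum1 A g hg) (Nat.cast_nonneg _)
  obtain ⟨g, hg⟩ : ∃ g : HeightOneSpectrum (𝓞 F) → ℝ, g = fun v => G (t v).1 (t v).2 := ⟨_, rfl⟩
  have hg1 : ∀ v, |g v| ≤ 1 := fun v => by
    rw [hg]
    exact hLip.le_one _ _
  have hhg' : ∀ w, absNorm w.asIdeal = absNorm (below F w).asIdeal → h w = g (below F w) := fun w hw => by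
    rw [hhg w hw, hg]
  rw [← hg, ← hd, ← hn]
  obtain ⟨A, hA⟩ : ∃ A : Finset (HeightOneSpectrum (𝓞 K)), A = (upTo K x).filter (fun w => below F w ∉ S) := ⟨_, rfl⟩
  rw [← hA]
  rcases hgood with h2 | hgd
  · have a1 := havg1 A h hh
    have a2 : |avg S g x| ≤ 1 := havg1 (V S x) g hg1
    have a3 := abs_sub ((∑ w ∈ A, h w) / (A.card : ℝ)) (avg S g x)
    have a4 : 2 ≤ d * n * η := by nlinarith
    have a5 : 32 * d * n * η = 32 * (d * n * η) := by ring
    rw [a5]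
    linarith
  obtain ⟨N, hNN⟩ : ∃ N : ℝ, N = ((V S x).card : ℝ) := ⟨_, rfl⟩
  have hN0 : 0 < N := by rw [hNN]; exact_mod_cast hgd.pos
  have hηN : 0 ≤ η * N := by positivity
  have hq1 : 1 ≤ q := Nat.one_le_iff_ne_zero.2 (NeZero.ne q)
  have hlog : 2 * Real.log q ≤ η * N := by
    have h1 : Real.log q ≤ Real.log Q := Real.log_le_log (by exact_mod_cast hq1) (by exact_mod_cast hqQ)
    have h2 := hgd.log_le
    rw [← hNN] at h2
    linarith
  have hsq : Real.sqrt x ≤ η * N := by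
    rw [hNN]
    exact hgd.sqrt_le
  have b1 := FLDX_two hN hW F K S hηN hqQ hLaw hE g hg1 hsq hlog (fun y hy hyE => by
    have := hgd.sum y hy hyE G hLip
    rw [← hNN] at this
    rw [hg]
    exact this)
  have b2 := FLDX_two hN hW F K S hηN hqQ hLaw hE (fun _ => 1) (fun _ => by rw [abs_one]) hsq hlog
    (fun y hy hyE => by
      have := hgd.one_sum y hy hyE
      rw [← hNN] at this
      simpa using this)
  have c1 := FLDX_one F K S x h g hh hhg'
  have c2 := FLDX_one F K S x (fun _ => 1) (fun _ => 1) (fun _ => by rw [abs_one]) (fun _ _ => rfl)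
  rw [← hA, hKd] at c1 c2
  rw [← hd, ← hn] at b1 b2
  have e1 : ∑ v ∈ V S x, (1 : ℝ) = N := by rw [sum_const, nsmul_eq_mul, mul_one, hNN]
  have e2 : ∑ w ∈ A, (1 : ℝ) = A.card := by rw [sum_const, nsmul_eq_mul, mul_one]
  rw [e1] at b2
  rw [e2] at c2
  have hdn0 : 0 ≤ d * n := by linarith
  have hdT : 0 ≤ d * n * (η * N) := by positivity
  have dd : d * n * Real.sqrt x ≤ d * n * (η * N) := mul_le_mul_of_nonneg_left hsq hdn0
  have k1 : |∑ w ∈ A, h w - ∑ v ∈ V S x, g v| ≤ 8 * (d * n) * η * N := by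
    have e : ∑ w ∈ A, h w - ∑ v ∈ V S x, g v = (∑ w ∈ A, h w - ∑ v ∈ V S x, (degOne F K v : ℝ) * g v) +
        (∑ v ∈ V S x, (degOne F K v : ℝ) * g v - ∑ v ∈ V S x, g v) := by ring
    rw [e]
    refine (abs_add_le _ _).trans ?_
    have k3 : 8 * (d * n) * η * N = 8 * (d * n * (η * N)) := by ring
    rw [k3]
    linarith
  have k2 : |(A.card : ℝ) - N| ≤ 8 * (d * n) * η * N := by
    have e : (A.card : ℝ) - N = (A.card - ∑ v ∈ V S x, (degOne F K v : ℝ) * 1) +
        (∑ v ∈ V S x, (degOne F K v : ℝ) * 1 - N) := by ring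
    rw [e]
    refine (abs_add_le _ _).trans ?_
    have k3 : 8 * (d * n) * η * N = 8 * (d * n * (η * N)) := by ring
    rw [k3]
    linarith
  have hSN : |∑ v ∈ V S x, g v| ≤ N := by
    rw [hNN]
    exact hsum1 (V S x) g hg1
  have key := AB.ratio hN0 (Nat.cast_nonneg A.card) hSN (hsum1 A h hh) k1 k2
  have havg : avg S g x = (∑ v ∈ V S x, g v) / N := by
    rw [hNN]
    rfl
  rw [havg]
  exact key.trans (le_of_eq (by ring))

end Pool.NF
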