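import Pool.Agent.Work.MP_6dc561_nf.I
import Pool.Agent.Work.MP_6dc561_gf.Gen

/-!
# GEN: families of arbitrary sequences against primitive characters
-/

set_option autoImplicit false

open NumberField IsDedekindDomain Ideal Polynomial Finset Module

namespace Pool.NF

open Pool.Agent.Work.MP_6dc561_nt
open Pool.Agent.Work.MP_6dc561_nt.AA (goodUpToQ)
open Pool.Agent.Work.MP_6dc561_nt.PS (LipR)
open Pool.Agent.Work.MP_6dc561_nt.AB (InCoset Ch Prim ev ann indCh IsCharOf)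
open Pool.DS

namespace GENb

theorem natDegree_f0 : f0.natDegree = 5 := by
  unfold f0
  compute_degree!

theorem separable_f0 : (f0.map (Int.castRingHom ℚ)).Separable := by
  have h : f0.map (Int.castRingHom ℚ) = X ^ 5 - C (1 : ℚ) := by
    unfold f0
    simp
  rw [h]
  exact Polynomial.separable_X_pow_sub_C 1 (by norm_num) one_ne_zero

end GENb

open GENb in
theorem p_GEN : Stmt_GEN := by
  classical
  intro ι _ _ α β R δ κ hκ hκδ hκ120
  choose A hA1 hA using fun j : ι => Pool.GF.char_core f0 (Or.inl natDegree_f0) separable_f0 (α j) (β j) R δ κ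
    hκ hκδ hκ120
  have hle : ∀ j, A j ≤ ∑ i, A i := fun j =>
    Finset.single_le_sum (f := A) (fun i _ => zero_le_one.trans (hA1 i)) (Finset.mem_univ j)
  obtain ⟨j₀⟩ : Nonempty ι := inferInstance
  refine ⟨∑ i, A i, (hA1 j₀).trans (hle j₀), fun Q hQ => ?_⟩
  choose E hE1 hE2 hE3 using fun j => hA j Q hQ
  have hQ0 : (0 : ℝ) ≤ (Q : ℝ) ^ δ := Real.rpow_nonneg (Nat.cast_nonneg _) _
  refine ⟨Finset.univ.biUnion E, ?_, ?_, fun x hx1 hx2 => ?_⟩
  · calc ((Finset.univ.biUnion E).card : ℝ) ≤ ∑ j, ((E j).card : ℝ) := by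
          exact_mod_cast Finset.card_biUnion_le
      _ ≤ ∑ j, A j * (Q : ℝ) ^ δ := Finset.sum_le_sum fun j _ => hE1 j
      _ = (∑ j, A j) * (Q : ℝ) ^ δ := by rw [Finset.sum_mul]
  · exact Finset.biUnion_subset.2 fun j _ => hE2 j
  refine ⟨(hE3 j₀ x hx1 hx2).1, ?_⟩
  have hx := (hE3 j₀ x hx1 hx2).1
  set m : ℝ := (min (x : ℝ) Q) ^ (-κ) with hm
  have hm0 : 0 ≤ m := by
    rw [hm]
    exact Real.rpow_nonneg (le_min (Nat.cast_nonneg _) (Nat.cast_nonneg _)) _
  have hmono : ∀ j, A j * m ≤ (∑ i, A i) * m := fun j => mul_le_mul_of_nonneg_right (hle j) hm0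
  by_cases hall : ∀ j, Pool.GF.GoodAt f0 (α j) (β j) R Q (E j) x (A j * m)
  · right
    have hc : (0 : ℝ) ≤ ((pr x).card : ℝ) := Nat.cast_nonneg _
    have hmc : ∀ j, A j * m * ((pr x).card : ℝ) ≤ (∑ i, A i) * m * ((pr x).card : ℝ) := fun j =>
      mul_le_mul_of_nonneg_right (hmono j) hc
    refine ⟨(hall j₀).pos, (hall j₀).log_le.trans (hmc j₀), (hall j₀).sqrt_le.trans (hmc j₀),
      fun j y hy hyE G hG => ?_⟩
    have hyj : y ∉ E j := fun h => hyE (Finset.mem_biUnion.2 ⟨j, Finset.mem_univ _, h⟩)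
    exact ((hall j).sum y hy hyj G hG).trans (hmc j)
  · left
    push Not at hall
    obtain ⟨j, hj⟩ := hall
    rcases (hE3 j x hx1 hx2).2 with h | h
    · exact h.trans (hmono j)
    · exact absurd h hj

end Pool.NF
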