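import Pool.Agent.Work.MP_6dc561_nf.I

/-!
# NPR: few primes of degree greater than one
-/

set_option autoImplicit false

open NumberField IsDedekindDomain Ideal Polynomial Finset Module

namespace Pool.NF

open Pool.Agent.Work.MP_6dc561_nt
open Pool.DS

namespace NPR

open Pool.Agent.Work.MP_6dc561_nt.BC

theorem fiber {F : Type} [Field F] [NumberField F] (A : Finset (HeightOneSpectrum (𝓞 F))) (p : ℕ)
    [DecidablePred fun w : HeightOneSpectrum (𝓞 F) => ch w = p] :
    (A.filter (fun w => ch w = p)).card ≤ finrank ℚ F := by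
  classical
  by_cases hp : p.Prime
  · have hfin := primesOver_finite (K := F) (p := p)
    let _ : Fintype ((PZ p).primesOver (𝓞 F)) := Fintype.ofFinite _
    have hsub : A.filter (fun w => ch w = p) ⊆ Finset.univ.image (toH (K := F) hp) := by
      intro w hw
      rw [mem_filter] at hw
      obtain ⟨P, hP⟩ := exists_toH hp hw.2
      rw [mem_image]
      exact ⟨P, mem_univ _, hP⟩
    refine (card_le_card hsub).trans (card_image_le.trans ?_)
    rw [card_univ]
    exact Pool.Agent.Work.MP_6dc561_nt.AB.card_primesOver_le hp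
  · have hempty : A.filter (fun w => ch w = p) = ∅ := by
      rw [filter_eq_empty_iff]
      intro w hw hwp
      obtain ⟨h1, _⟩ := ch_spec w
      rw [hwp] at h1
      exact hp h1
    rw [hempty, card_empty]
    exact Nat.zero_le _

end NPR

theorem p_NPR : Stmt_NPR := by
  classical
  intro F _ _ x
  set B := (upTo F x).filter (fun v => ¬ (absNorm v.asIdeal).Prime) with hB
  have hmap : ∀ w ∈ B, Pool.Agent.Work.MP_6dc561_nt.BC.ch w ∈ Finset.Icc 1 (Nat.sqrt x) := by
    intro w hw
    rw [hB, mem_filter, mem_upTo] at hw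
    obtain ⟨h1, _, n, hn, h3⟩ := Pool.Agent.Work.MP_6dc561_nt.BC.ch_spec w
    have h4 : absNorm w.asIdeal ≤ x := by exact_mod_cast hw.1
    have h5 : n ≠ 1 := by
      intro h
      rw [h, pow_one] at h3
      exact hw.2 (by rw [h3]; exact h1)
    have h6 : Pool.Agent.Work.MP_6dc561_nt.BC.ch w ^ 2 ≤ x := by
      refine le_trans ?_ h4
      rw [h3]
      exact Nat.pow_le_pow_right h1.pos (by omega)
    rw [Finset.mem_Icc]
    exact ⟨h1.one_lt.le, Nat.le_sqrt'.2 h6⟩
  have hcard : B.card ≤ finrank ℚ F * Nat.sqrt x := by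
    rw [Finset.card_eq_sum_card_fiberwise hmap]
    calc ∑ p ∈ Finset.Icc 1 (Nat.sqrt x),
          (B.filter (fun w => Pool.Agent.Work.MP_6dc561_nt.BC.ch w = p)).card
        ≤ ∑ p ∈ Finset.Icc 1 (Nat.sqrt x), finrank ℚ F :=
          Finset.sum_le_sum fun p _ => NPR.fiber B p
      _ = finrank ℚ F * Nat.sqrt x := by
          rw [Finset.sum_const, Nat.card_Icc, Nat.add_sub_cancel, smul_eq_mul, mul_comm]
  calc (B.card : ℝ) ≤ ((finrank ℚ F * Nat.sqrt x : ℕ) : ℝ) := by exact_mod_cast hcard
    _ = finrank ℚ F * (Nat.sqrt x : ℝ) := by push_cast; ring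
    _ ≤ finrank ℚ F * Real.sqrt x :=
        mul_le_mul_of_nonneg_left Real.nat_sqrt_le_real_sqrt (Nat.cast_nonneg _)

end Pool.NF
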