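import Pool.Agent.Work.MP_6dc561_nf.I

/-!
# Splitting of primes in the composite of a number field with a cyclotomic subfield
-/

set_option autoImplicit false

open NumberField IsDedekindDomain Ideal Polynomial Finset Module

namespace Pool.NF

open Pool.Agent.Work.MP_6dc561_nt
open Pool.Agent.Work.MP_6dc561_nt.AA (goodUpToQ)
open Pool.Agent.Work.MP_6dc561_nt.PS (LipR)
open Pool.Agent.Work.MP_6dc561_nt.AB (InCoset Ch Prim ev ann indCh IsCharOf subK)
open Pool.DS
open scoped Pointwise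

namespace SPL

variable {F K L : Type} [Field F] [NumberField F] [Field K] [NumberField K] [Field L]
  [NumberField L] [Algebra F K] [Algebra L K]

/-- the composite is Galois over `F` -/
theorem galois [IsGalois ℚ L] (hadj : IntermediateField.adjoin F (Set.range (algebraMap L K)) = ⊤) :
    IsGalois F K := by
  have hn : Normal F K := by
    rw [normal_iff]
    intro x
    refine ⟨Algebra.IsIntegral.isIntegral x, ?_⟩
    have hx : x ∈ IntermediateField.adjoin F (Set.range (algebraMap L K)) := by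
      rw [hadj]; exact IntermediateField.mem_top
    refine IntermediateField.splits_of_mem_adjoin F K (S := Set.range (algebraMap L K)) ?_ hx
    rintro _ ⟨y, rfl⟩
    refine ⟨Algebra.IsIntegral.isIntegral _, ?_⟩
    have h1 : ((minpoly ℚ y).map (algebraMap ℚ L)).Splits := Normal.splits inferInstance y
    have h2 : ((minpoly ℚ y).map (algebraMap ℚ K)).Splits := by
      have h3 := h1.map (algebraMap L K)
      rwa [Polynomial.map_map, ← IsScalarTower.algebraMap_eq ℚ L K] at h3
    have h4 : minpoly F (algebraMap L K y) ∣ (minpoly ℚ y).map (algebraMap ℚ F) := by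
      apply minpoly.dvd
      rw [aeval_map_algebraMap, aeval_algebraMap_apply, minpoly.aeval, map_zero]
    have h5 := Polynomial.map_dvd (algebraMap F K) h4
    rw [Polynomial.map_map, ← IsScalarTower.algebraMap_eq ℚ F K] at h5
    refine h2.of_dvd ?_ h5
    exact Polynomial.map_ne_zero (minpoly.ne_zero (Algebra.IsIntegral.isIntegral y))
  exact ⟨⟩

/-- restriction of automorphisms to `L` -/
noncomputable def rho [Normal ℚ L] : Gal(K/F) →* Gal(L/ℚ) :=
  (AlgEquiv.restrictNormalHom L).comp (AlgEquiv.restrictScalarsHom ℚ)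

theorem rho_spec [Normal ℚ L] (σ : Gal(K/F)) (y : L) :
    algebraMap L K (rho (L := L) σ y) = σ (algebraMap L K y) :=
  AlgEquiv.restrictNormal_commutes (AlgEquiv.restrictScalars ℚ σ) L y

theorem rho_smul [Normal ℚ L] (σ : Gal(K/F)) (y : 𝓞 L) :
    algebraMap (𝓞 L) (𝓞 K) (rho (L := L) σ • y) = σ • algebraMap (𝓞 L) (𝓞 K) y := by
  apply NumberField.RingOfIntegers.ext
  exact rho_spec σ (y : L)

theorem rho_inj [Normal ℚ L] (hadj : IntermediateField.adjoin F (Set.range (algebraMap L K)) = ⊤)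
    (σ : Gal(K/F)) (h : rho (L := L) σ = 1) : σ = 1 := by
  ext x
  have hx : x ∈ IntermediateField.adjoin F (Set.range (algebraMap L K)) := by
    rw [hadj]; exact IntermediateField.mem_top
  change σ x = x
  induction hx using IntermediateField.adjoin_induction with
  | mem x hx =>
    obtain ⟨y, rfl⟩ := hx
    rw [← rho_spec, h]
    rfl
  | algebraMap x => exact σ.commutes x
  | add x y _ _ h1 h2 => rw [map_add, h1, h2]
  | inv x _ h1 => rw [map_inv₀, h1]
  | mul x y _ _ h1 h2 => rw [map_mul, h1, h2]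

/-- the decomposition groups above a prime which splits in `L` are trivial -/
theorem stab (q : ℕ) [NeZero q] (C : Type) [Field C] [NumberField C] [Algebra L C]
    [IsCyclotomicExtension {q} ℚ C] [Normal ℚ L] [IsGalois ℚ L]
    (hadj : IntermediateField.adjoin F (Set.range (algebraMap L K)) = ⊤)
    {p : ℕ} (hp : p.Prime) (hpq : p.Coprime q) (hu : ZMod.unitOfCoprime p hpq ∈ subK q L C)
    (w : HeightOneSpectrum (𝓞 K)) (hw : ((p : ℕ) : 𝓞 K) ∈ w.asIdeal) (σ : Gal(K/F))
    (hσ : σ ∈ MulAction.stabilizer Gal(K/F) w.asIdeal) : σ = 1 := by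
  have hmem : ((p : ℕ) : 𝓞 L) ∈ (below L w).asIdeal := by
    change algebraMap (𝓞 L) (𝓞 K) ((p : ℕ) : 𝓞 L) ∈ w.asIdeal
    rwa [map_natCast]
  have hch : BC.ch (below L w) = p := (BC.eq_ch hp hmem).symm
  obtain ⟨P, hP⟩ := BC.exists_toH hp hch
  have hPu : P.1 = (below L w).asIdeal := by rw [← hP]; rfl
  have hpm := BC.PZ_maximal hp
  have hpp := BC.PZ_prime hp
  have hwm : P.1.IsMaximal := primesOver.isMaximal P
  have hwp : P.1.IsPrime := P.2.1
  have hwo : P.1.LiesOver (BC.PZ p) := P.2.2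
  have h5 : Nat.card (MulAction.stabilizer Gal(L/ℚ) P.1) = 1 := by
    rw [Ideal.card_stabilizer_eq (BC.PZ p), ramificationIdxIn_eq_ramificationIdx (BC.PZ p) P.1 Gal(L/ℚ),
      inertiaDegIn_eq_inertiaDeg (BC.PZ p) P.1 Gal(L/ℚ), AB.e_eq_one q C hp hpq P]
    have h6 := BC.absNorm_over hp P
    rw [AB.absNorm_of_mem hp hpq hu P] at h6
    have h7 : P.1.inertiaDeg ℤ = 1 := by
      have h8 : p ^ (P.1.inertiaDeg ℤ) = p ^ 1 := by rw [pow_one]; exact h6.symm
      exact Nat.pow_right_injective hp.two_le h8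
    rw [h7]
  have h9 : MulAction.stabilizer Gal(L/ℚ) P.1 = ⊥ := by
    rw [← Subgroup.card_eq_one]
    exact h5
  apply rho_inj (L := L) hadj
  have h10 : rho (L := L) σ ∈ MulAction.stabilizer Gal(L/ℚ) P.1 := by
    rw [MulAction.mem_stabilizer_iff]
    ext y
    rw [Ideal.mem_pointwise_smul_iff_inv_smul_mem, hPu]
    change algebraMap (𝓞 L) (𝓞 K) ((rho (L := L) σ)⁻¹ • y) ∈ w.asIdeal ↔
      algebraMap (𝓞 L) (𝓞 K) y ∈ w.asIdeal
    rw [← map_inv, rho_smul, ← Ideal.mem_pointwise_smul_iff_inv_smul_mem,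
      MulAction.mem_stabilizer_iff.1 hσ]
  rw [h9, Subgroup.mem_bot] at h10
  exact h10

/-- the number of primes above a prime which splits in `L` -/
theorem degOne_eq [IsGalois F K] (v : HeightOneSpectrum (𝓞 F))
    (hst : ∀ w : HeightOneSpectrum (𝓞 K), below F w = v → ∀ σ : Gal(K/F),
      σ ∈ MulAction.stabilizer Gal(K/F) w.asIdeal → σ = 1) : degOne F K v = finrank F K := by
  have hvm := v.isMaximal
  have hvp := v.isPrime
  have hfinv : Finite (𝓞 F ⧸ v.asIdeal) := v.asIdeal.finiteQuotientOfFreeOfNeBot v.ne_bot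
  have hperf : PerfectField v.asIdeal.ResidueField := by
    have : Finite v.asIdeal.ResidueField := by infer_instance
    infer_instance
  have key : ∀ w : HeightOneSpectrum (𝓞 K), below F w = v →
      Nat.card (inertia Gal(K/F) w.asIdeal) = 1 ∧ w.asIdeal.inertiaDeg (𝓞 F) = 1 := by
    intro w hw
    have hwp := w.isPrime
    have hwo : w.asIdeal.LiesOver v.asIdeal := ⟨by rw [← hw]; rfl⟩
    have h1 := card_stabilizer_eq_card_inertia_mul_finrank (G := Gal(K/F)) v.asIdeal w.asIdeal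
    have h2 : MulAction.stabilizer Gal(K/F) w.asIdeal = ⊥ := by
      rw [eq_bot_iff]
      intro σ hσ
      rw [Subgroup.mem_bot]
      exact hst w hw σ hσ
    rw [h2, Subgroup.card_bot] at h1
    exact ⟨Nat.eq_one_of_mul_eq_one_right h1.symm, Nat.eq_one_of_mul_eq_one_left h1.symm⟩
  have hdeg : degOne F K v = (v.asIdeal.primesOver (𝓞 K)).ncard := by
    unfold degOne
    rw [← Nat.card_coe_set_eq]
    refine Nat.card_congr ⟨fun w => ⟨w.1.asIdeal, QCH.mem_over w.2.1⟩,
      fun P => ⟨⟨P.1, P.2.1, ne_bot_of_mem_primesOver v.ne_bot P.2⟩, QCH.below_of_mem P, ?_⟩,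
      fun w => rfl, fun P => rfl⟩
    have h1 := (key ⟨P.1, P.2.1, ne_bot_of_mem_primesOver v.ne_bot P.2⟩ (QCH.below_of_mem P)).2
    have h2 := absNorm_over v P
    change P.1.inertiaDeg (𝓞 F) = 1 at h1
    rw [h1, pow_one] at h2
    exact h2
  rw [hdeg]
  obtain ⟨P, hP⟩ : (v.asIdeal.primesOver (𝓞 K)).Nonempty := by
    obtain ⟨P, hPm, hPo⟩ := exists_maximal_ideal_liesOver_of_isIntegral (S := 𝓞 K) v.asIdeal
    exact ⟨P, hPm.isPrime, hPo⟩
  have hPp : P.IsPrime := hP.1
  have hPo : P.LiesOver v.asIdeal := hP.2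
  obtain ⟨k1, k2⟩ := key ⟨P, hP.1, ne_bot_of_mem_primesOver v.ne_bot hP⟩ (QCH.below_of_mem ⟨P, hP⟩)
  have h3 := ncard_primesOver_mul_card_inertia_mul_finrank (G := Gal(K/F)) v.asIdeal P
  change Nat.card (inertia Gal(K/F) P) = 1 at k1
  change P.inertiaDeg (𝓞 F) = 1 at k2
  rw [k1, k2, mul_one, mul_one] at h3
  rw [h3, IsGalois.card_aut_eq_finrank]

end SPL

open SPL in
theorem p_SPL : Stmt_SPL := by
  classical
  intro F K L _ _ _ _ _ _ _ _ q _ hφ hadj hfin
  obtain ⟨φ⟩ := hφ
  let _ : Algebra L (CyclotomicField q ℚ) := φ.toAlgebra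
  have hcyc := AB.isCyclotomic q
  have hgL : IsGalois ℚ L := AB.normal_K q L (CyclotomicField q ℚ)
  have hgK : IsGalois F K := galois (L := L) hadj
  refine ⟨subK q L (CyclotomicField q ℚ), AB.index_subK, ⟨?_, fun v hvp hvq => ?_⟩,
    fun χ hχ => AB.isCharOf hχ⟩
  · rw [AB.index_subK]
    exact hfin
  obtain ⟨p, hp⟩ : ∃ p, absNorm v.asIdeal = p := ⟨_, rfl⟩
  rw [hp] at hvp hvq ⊢
  have hpv : ((p : ℕ) : 𝓞 F) ∈ v.asIdeal := by
    rw [← hp]
    exact absNorm_mem v.asIdeal
  have hpw : ∀ w : HeightOneSpectrum (𝓞 K), below F w = v → ((p : ℕ) : 𝓞 K) ∈ w.asIdeal := by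
    intro w hw
    rw [← hw] at hpv
    have h1 : algebraMap (𝓞 F) (𝓞 K) ((p : ℕ) : 𝓞 F) ∈ w.asIdeal := hpv
    rwa [map_natCast] at h1
  by_cases hin : InCoset (subK q L (CyclotomicField q ℚ)) 1 p
  · rw [if_pos hin, AB.index_subK, ← hfin]
    have hu := (AB.inC_one_iff _ hvq).1 hin
    exact degOne_eq v fun w hw σ hσ => stab q (CyclotomicField q ℚ) hadj hvp hvq hu w (hpw w hw) σ hσ
  · rw [if_neg hin]
    unfold degOne
    have hemp : IsEmpty {w : HeightOneSpectrum (𝓞 K) // below F w = v ∧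
        absNorm w.asIdeal = absNorm v.asIdeal} := by
      refine ⟨?_⟩
      rintro ⟨w, hw1, hw2⟩
      apply hin
      rw [AB.inC_one_iff _ hvq]
      have hmem : ((p : ℕ) : 𝓞 L) ∈ (below L w).asIdeal := by
        change algebraMap (𝓞 L) (𝓞 K) ((p : ℕ) : 𝓞 L) ∈ w.asIdeal
        rw [map_natCast]
        exact hpw w hw1
      have hch : BC.ch (below L w) = p := (BC.eq_ch hvp hmem).symm
      obtain ⟨P, hP⟩ := BC.exists_toH hvp hch
      refine AB.mem_of_absNorm hvp hvq P ?_
      have hPu : P.1 = (below L w).asIdeal := by rw [← hP]; rfl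
      rw [hPu]
      obtain ⟨h1, _, n, hn, h2⟩ := BC.ch_spec (below L w)
      obtain ⟨f, hf⟩ := DG1.norm_below L w
      rw [h2, hch, hw2, hp, ← pow_mul] at hf
      have h3 : n * f = 1 := by
        have h4 : p ^ (n * f) = p ^ 1 := by rw [pow_one]; exact hf
        exact Nat.pow_right_injective hvp.two_le h4
      rw [h2, hch, Nat.eq_one_of_mul_eq_one_right h3, pow_one]
    exact Nat.card_of_isEmpty

end Pool.NF
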