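import Pool.Agent.Work.MP_6dc561_nf.I2
import Pool.Agent.Work.MP_6dc561_nf.B_SPL

/-!
# Splitting of primes in the subextensions of a cyclotomic extension of a number field
-/

set_option autoImplicit false

open NumberField IsDedekindDomain Ideal Polynomial Finset Module

namespace Pool.NF

open Pool.Agent.Work.MP_6dc561_nt
open Pool.Agent.Work.MP_6dc561_nt.AB (InCoset Ch Prim ev ann indCh IsCharOf subK)
open Pool.DS
open scoped Pointwise

namespace SPLX

variable {F K M : Type} [Field F] [NumberField F] [Field K] [NumberField K] [Field M]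
  [NumberField M] [Algebra F K] [Algebra K M] [Algebra F M] [IsScalarTower F K M]

instance commF {F M : Type} [Field F] [NumberField F] [Field M] [NumberField M] [Algebra F M] :
    SMulCommClass Gal(M/F) (𝓞 F) (𝓞 M) := by
  refine ⟨fun σ a x => ?_⟩
  apply NumberField.RingOfIntegers.ext
  rw [Algebra.smul_def, Algebra.smul_def]
  change σ ((algebraMap (𝓞 F) (𝓞 M) a : M) * (x : M)) = (algebraMap (𝓞 F) (𝓞 M) a : M) * σ (x : M)
  rw [map_mul]
  congr 1
  exact σ.commutes (a : F)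

theorem perfect (v : HeightOneSpectrum (𝓞 F)) [v.asIdeal.IsPrime] : PerfectField v.asIdeal.ResidueField := by
  have hvm := v.isMaximal
  have hfinv : Finite (𝓞 F ⧸ v.asIdeal) := v.asIdeal.finiteQuotientOfFreeOfNeBot v.ne_bot
  have : Finite v.asIdeal.ResidueField := by infer_instance
  infer_instance

/-- a Frobenius of the cyclotomic extension raises roots of unity to the power `p` -/
theorem frob_pow (q : ℕ) (P : Ideal (𝓞 M)) (hq : ((q : ℕ) : 𝓞 M) ∉ P) [P.IsPrime]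
    {p : ℕ} (hcard : Nat.card (𝓞 F ⧸ P.under (𝓞 F)) = p) (σ : Gal(M/F))
    (hσ : IsArithFrobAt (𝓞 F) σ P) (ζ : M) (hζ : ζ ^ q = 1) (hq0 : 0 < q) : σ ζ = ζ ^ p := by
  have hint : IsIntegral ℤ ζ := by
    refine ⟨X ^ q - 1, monic_X_pow_sub_C 1 hq0.ne', ?_⟩
    simp [hζ]
  set z : 𝓞 M := ⟨ζ, hint⟩ with hz
  have hz1 : z ^ q = 1 := by
    apply NumberField.RingOfIntegers.ext
    exact hζ
  have h1 := AlgHom.IsArithFrobAt.apply_of_pow_eq_one hσ (ζ := z) (m := q) hz1 hq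
  rw [hcard] at h1
  have h2 := congrArg (algebraMap (𝓞 M) M) h1
  rw [map_pow] at h2
  exact h2

/-- no inertia away from `q` -/
theorem inertia_trivial (q : ℕ) [NeZero q] [IsCyclotomicExtension {q} F M] (P : Ideal (𝓞 M))
    (hq : ((q : ℕ) : 𝓞 M) ∉ P) [P.IsPrime]
    {p : ℕ} (hpq : p.Coprime q) (hcard : Nat.card (𝓞 F ⧸ P.under (𝓞 F)) = p) (σ : Gal(M/F))
    (hσ : IsArithFrobAt (𝓞 F) σ P) (ρ : Gal(M/F)) (hρ : ρ ∈ inertia Gal(M/F) P) : ρ = 1 := by
  have hq0 : 0 < q := Nat.pos_of_ne_zero (NeZero.ne q)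
  have hζ := IsCyclotomicExtension.zeta_spec q F M
  set ζ := IsCyclotomicExtension.zeta q F M with hζdef
  have h1 : IsArithFrobAt (𝓞 F) (ρ * σ) P := by
    intro x
    have h2 : σ • x - x ^ Nat.card (𝓞 F ⧸ P.under (𝓞 F)) ∈ P := hσ x
    have h3 : ρ • (σ • x) - σ • x ∈ P := hρ (σ • x)
    have h4 := P.add_mem h3 h2
    rw [sub_add_sub_cancel] at h4
    exact h4
  have h5 := frob_pow q P hq hcard (ρ * σ) h1 ζ hζ.pow_eq_one hq0
  have h6 := frob_pow q P hq hcard σ hσ ζ hζ.pow_eq_one hq0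
  have h7 : ρ (ζ ^ p) = ζ ^ p := by
    rw [← h6]
    exact h5.trans h6.symm
  have hprim : IsPrimitiveRoot (ζ ^ p) q := hζ.pow_of_coprime p hpq
  obtain ⟨i, -, hi⟩ := hprim.eq_pow_of_pow_eq_one hζ.pow_eq_one
  have h8 : ρ ζ = ζ := by
    rw [← hi, map_pow, h7]
  refine IsCyclotomicExtension.algEquiv_eq_of_apply_eq {q} F M ?_
  intro n hn hn0
  rw [Set.mem_singleton_iff] at hn
  subst hn
  refine ⟨ζ, hζ, ?_⟩
  rw [h8]
  rfl

/-- the splitting law in terms of the Frobenius -/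
theorem law (q : ℕ) [NeZero q] [IsCyclotomicExtension {q} F M] (v : HeightOneSpectrum (𝓞 F)) {p : ℕ}
    (hv : absNorm v.asIdeal = p) (hp : p.Prime) (hpq : p.Coprime q) :
    ∃ (σ : Gal(M/F)) (τ : Gal(K/F)), (∀ z : K, σ (algebraMap K M z) = algebraMap K M (τ z)) ∧
      (∀ ζ : M, ζ ^ q = 1 → σ ζ = ζ ^ p) ∧ (τ = 1 → degOne F K v = finrank F K) ∧
      (τ ≠ 1 → degOne F K v = 0) := by
  have hq0 : 0 < q := Nat.pos_of_ne_zero (NeZero.ne q)
  have habM : IsAbelianGalois F M := IsCyclotomicExtension.isAbelianGalois {q} F M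
  have habK : IsAbelianGalois F K := IsAbelianGalois.tower_bot F K M
  have hvm := v.isMaximal
  have hvp := v.isPrime
  have hperf := perfect v
  obtain ⟨w, hwm, hwo⟩ := exists_maximal_ideal_liesOver_of_isIntegral (S := 𝓞 K) v.asIdeal
  obtain ⟨P, hPm, hPo⟩ := exists_maximal_ideal_liesOver_of_isIntegral (S := 𝓞 M) w
  have hPv : P.LiesOver v.asIdeal := LiesOver.trans P w v.asIdeal
  have hwne : w ≠ ⊥ := ne_bot_of_mem_primesOver v.ne_bot ⟨hwm.isPrime, hwo⟩
  have hPne : P ≠ ⊥ := ne_bot_of_mem_primesOver v.ne_bot ⟨hPm.isPrime, hPv⟩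
  have hfinP : Finite (𝓞 M ⧸ P) := P.finiteQuotientOfFreeOfNeBot hPne
  have hPp : P.IsPrime := hPm.isPrime
  have hwp : w.IsPrime := hwm.isPrime
  have hcv : Nat.card (𝓞 F ⧸ v.asIdeal) = p := by
    rw [← hv, absNorm_apply, Submodule.cardQuot_apply]
  have hcP : Nat.card (𝓞 F ⧸ P.under (𝓞 F)) = p := by
    rw [← hcv, ← hPv.over]
  have hcw : Nat.card (𝓞 F ⧸ w.under (𝓞 F)) = p := by
    rw [← hcv, ← hwo.over]
  have hpv : ((p : ℕ) : 𝓞 F) ∈ v.asIdeal := by
    rw [← hv]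
    exact absNorm_mem v.asIdeal
  have hch : BC.ch v = p := (BC.eq_ch hp hpv).symm
  have hqP : ((q : ℕ) : 𝓞 M) ∉ P := by
    intro h
    have h1 : ((q : ℕ) : 𝓞 F) ∈ v.asIdeal := by
      rw [hPv.over, Ideal.under_def, Ideal.mem_comap, map_natCast]
      exact h
    have h2 := (BC.mem_iff_dvd v (q : ℤ)).1 (by exact_mod_cast h1)
    rw [hch] at h2
    exact (Nat.Prime.coprime_iff_not_dvd hp).1 hpq (by exact_mod_cast h2)
  obtain ⟨σ, hσ⟩ := IsArithFrobAt.exists_of_isInvariant (𝓞 F) Gal(M/F) P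
  have hσ' : ∀ x : 𝓞 M, σ • x - x ^ p ∈ P := by
    intro x
    have := hσ x
    rw [hcP] at this
    exact this
  set τ : Gal(K/F) := σ.restrictNormal K with hτ
  have hcomm : ∀ x : 𝓞 K, algebraMap (𝓞 K) (𝓞 M) (τ • x) = σ • algebraMap (𝓞 K) (𝓞 M) x := by
    intro x
    apply NumberField.RingOfIntegers.ext
    exact AlgEquiv.restrictNormal_commutes σ K (x : K)
  have hfrobK : ∀ x : 𝓞 K, τ • x - x ^ p ∈ w := by
    intro x
    have h4 := hσ' (algebraMap (𝓞 K) (𝓞 M) x)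
    rw [← hcomm, ← map_pow, ← map_sub] at h4
    rw [hPo.over, Ideal.under_def, Ideal.mem_comap]
    exact h4
  have hfrob : IsArithFrobAt (𝓞 F) τ w := by
    intro x
    rw [hcw]
    exact hfrobK x
  -- no ramification
  have hI : Nat.card (inertia Gal(M/F) P) = 1 := by
    have h1 : inertia Gal(M/F) P = ⊥ := by
      rw [eq_bot_iff]
      intro ρ hρ
      rw [Subgroup.mem_bot]
      exact inertia_trivial q P hqP hpq hcP σ hσ ρ hρ
    rw [h1]
    exact Subgroup.card_bot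
  have hI2 := card_inertia_eq_ramificationIdxIn (G := Gal(M/F)) v.asIdeal P
  rw [hI, ramificationIdxIn_eq_ramificationIdx v.asIdeal P Gal(M/F)] at hI2
  have htow := ramificationIdx_tower (R := 𝓞 F) w P
  rw [← hI2] at htow
  have hew : w.ramificationIdx (𝓞 F) = 1 := Nat.eq_one_of_mul_eq_one_right htow.symm
  have hein : v.asIdeal.ramificationIdxIn (𝓞 K) = 1 := by
    rw [ramificationIdxIn_eq_ramificationIdx v.asIdeal w Gal(K/F)]
    exact hew
  refine ⟨σ, τ, fun z => (AlgEquiv.restrictNormal_commutes σ K z).symm,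
    fun ζ hζ => frob_pow q P hqP hcP σ hσ ζ hζ hq0, fun h1 => ?_, fun h1 => ?_⟩
  · have hfin : Finite (𝓞 K ⧸ w) := w.finiteQuotientOfFreeOfNeBot hwne
    have hdom : IsDomain (𝓞 K ⧸ w) := Ideal.Quotient.isDomain w
    have h6 : ∀ z : 𝓞 K ⧸ w, z ^ p = z := by
      intro z
      obtain ⟨x, rfl⟩ := Ideal.Quotient.mk_surjective z
      rw [← map_pow, eq_comm, Ideal.Quotient.eq]
      have h7 := hfrobK x
      rw [h1, one_smul] at h7
      exact h7
    have h7 : Nat.card (𝓞 K ⧸ w) ≤ p := AB.card_le_of_pow hp.one_lt h6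
    have h8 : absNorm w ≤ p := by
      rw [absNorm_apply, Submodule.cardQuot_apply]
      exact h7
    have h9 : absNorm w = absNorm v.asIdeal ^ (w.inertiaDeg (𝓞 F)) :=
      absNorm_over v ⟨w, hwp, hwo⟩
    have h10 : 0 < w.inertiaDeg (𝓞 F) := w.inertiaDeg_pos (𝓞 F)
    have h11 : w.inertiaDeg (𝓞 F) = 1 := by
      by_contra hne
      have h12 : p ^ 1 < p ^ (w.inertiaDeg (𝓞 F)) := Nat.pow_lt_pow_right hp.one_lt (by omega)
      rw [h9, hv] at h8
      rw [pow_one] at h12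
      omega
    have hfin' : v.asIdeal.inertiaDegIn (𝓞 K) = 1 := by
      rw [inertiaDegIn_eq_inertiaDeg v.asIdeal w Gal(K/F)]
      exact h11
    refine SPL.degOne_eq v fun w' hw' ρ hρ => ?_
    have hw'p := w'.isPrime
    have hw'o : w'.asIdeal.LiesOver v.asIdeal := ⟨by rw [← hw']; rfl⟩
    have h13 := card_stabilizer_eq (G := Gal(K/F)) v.asIdeal w'.asIdeal
    rw [hein, hfin', mul_one, Subgroup.card_eq_one] at h13
    rw [h13, Subgroup.mem_bot] at hρ
    exact hρ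
  · unfold degOne
    have hemp : IsEmpty {w : HeightOneSpectrum (𝓞 K) // below F w = v ∧
        absNorm w.asIdeal = absNorm v.asIdeal} := by
      refine ⟨?_⟩
      rintro ⟨w', hw1, hw2⟩
      apply h1
      have hw'p := w'.isPrime
      have hw'o : w'.asIdeal.LiesOver v.asIdeal := ⟨by rw [← hw1]; rfl⟩
      have h2 := absNorm_over v ⟨w'.asIdeal, hw'p, hw'o⟩
      change absNorm w'.asIdeal = absNorm v.asIdeal ^ (w'.asIdeal.inertiaDeg (𝓞 F)) at h2
      rw [hw2, hv] at h2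
      have h3 : w'.asIdeal.inertiaDeg (𝓞 F) = 1 := by
        have h4 : p ^ (w'.asIdeal.inertiaDeg (𝓞 F)) = p ^ 1 := by rw [pow_one]; exact h2.symm
        exact Nat.pow_right_injective hp.two_le h4
      have h5 : v.asIdeal.inertiaDegIn (𝓞 K) = 1 := by
        rw [inertiaDegIn_eq_inertiaDeg v.asIdeal w'.asIdeal Gal(K/F)]
        exact h3
      have h6 := card_stabilizer_eq (G := Gal(K/F)) v.asIdeal w
      rw [hein, h5, mul_one, Subgroup.card_eq_one] at h6
      have h7 := hfrob.mem_stabilizer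
      rw [h6, Subgroup.mem_bot] at h7
      exact h7
    exact Nat.card_of_isEmpty

end SPLX

open SPLX in
theorem p_SPLX (hO : Stmt_ORT) : Stmt_SPLX := by
  classical
  intro F K M _ _ _ _ _ _ _ _ _ _ q _ _
  have hq0 : 0 < q := Nat.pos_of_ne_zero (NeZero.ne q)
  have habM : IsAbelianGalois F M := IsCyclotomicExtension.isAbelianGalois {q} F M
  have habK : IsAbelianGalois F K := IsAbelianGalois.tower_bot F K M
  letI : CommGroup Gal(K/F) :=
    { (inferInstance : Group Gal(K/F)) with mul_comm := fun a b => mul_comm' a b }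
  obtain ⟨hf, hO'⟩ := hO Gal(K/F)
  refine ⟨hf, fun {_} χ h1 hχ => ⟨⟨h1, ?_, fun v hvp hvq => ?_⟩, fun θ hθ hθ1 => ?_⟩⟩
  · rw [(hO').1]
    exact IsGalois.card_aut_eq_finrank F K
  · obtain ⟨σ, τ, h2, h3, h4, h5⟩ := law (F := F) (K := K) (M := M) q v rfl hvp hvq
    have h6 : ∑ θ : Gal(K/F) →* ℂˣ, χ θ (absNorm v.asIdeal : ZMod q) =
        ∑ θ : Gal(K/F) →* ℂˣ, ((θ τ : ℂˣ) : ℂ) := by
      refine Finset.sum_congr rfl fun θ _ => ?_
      by_cases hθ : θ = 1
      · subst hθ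
        have h7 : IsUnit ((absNorm v.asIdeal : ℕ) : ZMod q) := (ZMod.isUnit_iff_coprime _ _).2 hvq
        rw [h1, MulChar.one_apply h7]
        simp
      · exact hχ θ hθ σ τ _ h2 h3
    rw [h6, (hO').2 τ]
    by_cases hτ : τ = 1
    · rw [if_pos hτ, h4 hτ, IsGalois.card_aut_eq_finrank F K]
    · rw [if_neg hτ, h5 hτ, Nat.cast_zero]
  · obtain ⟨τ, hτ⟩ : ∃ τ, θ τ ≠ 1 := by
      by_contra h
      push Not at h
      exact hθ (MonoidHom.ext h)
    obtain ⟨σ, hσ⟩ := AlgEquiv.restrictNormalHom_surjective (F := F) (K₁ := K) M τ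
    have hζ := IsCyclotomicExtension.zeta_spec q F M
    set ζ := IsCyclotomicExtension.zeta q F M with hζdef
    have h2 : (σ ζ) ^ q = 1 := by rw [← map_pow, hζ.pow_eq_one, map_one]
    obtain ⟨i, -, hi⟩ := hζ.eq_pow_of_pow_eq_one h2
    have h3 : i.Coprime q := by
      have h4 : IsPrimitiveRoot (σ ζ) q := hζ.map_of_injective σ.injective
      rw [← hi] at h4
      exact (hζ.pow_iff_coprime hq0 i).1 h4
    have h5 := hχ θ hθ σ τ i (fun z => by
      rw [← hσ]
      exact (AlgEquiv.restrictNormal_commutes σ K z).symm) (fun z hz => by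
      obtain ⟨j, -, rfl⟩ := hζ.eq_pow_of_pow_eq_one hz
      rw [map_pow, ← hi, ← pow_mul, ← pow_mul, mul_comm])
    have h6 : IsUnit ((i : ℕ) : ZMod q) := (ZMod.isUnit_iff_coprime _ _).2 h3
    rw [hθ1, MulChar.one_apply h6] at h5
    apply hτ
    apply Units.ext
    exact h5.symm

end Pool.NF
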