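import Pool.Agent.Work.MP_6dc561_nf.I

/-!
# SUMV (second copy): sums over the primes of `F` as sums over the rational primes
-/

set_option autoImplicit false

open NumberField IsDedekindDomain Ideal Polynomial Finset Module

namespace Pool.NF

open Pool.Agent.Work.MP_6dc561_nt
open Pool.Agent.Work.MP_6dc561_nt.AA (goodUpToQ)
open Pool.DS

namespace SUMVx

theorem mem_pr {p x : ℕ} (hp : p.Prime) (h2 : p ≠ 2) (h5 : p ≠ 5) (hx : p ≤ x) : p ∈ pr x := by
  classical
  haveI : Fact p.Prime := ⟨hp⟩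
  have hmap : f0.map (Int.castRingHom (ZMod p)) = X ^ 5 - C 1 := by
    simp [f0]
  have h5' : ((5 : ℕ) : ZMod p) ≠ 0 := by
    rw [Ne, ZMod.natCast_eq_zero_iff]
    intro h
    exact h5 ((Nat.prime_dvd_prime_iff_eq hp Nat.prime_five).1 h)
  rw [pr, goodUpToQ, mem_filter, mem_Icc]
  refine ⟨⟨hp.one_lt.le, hx⟩, hp, h2, ?_, ?_, ?_⟩
  · intro h
    have h1 : p ∣ 1 := by exact_mod_cast h
    exact hp.one_lt.ne' (Nat.dvd_one.1 h1)
  · rw [hmap]
    exact separable_X_pow_sub_C 1 h5' one_ne_zero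
  · rw [hmap, natDegree_X_pow_sub_C]

theorem card_norm (hC : Stmt_COL) {F : Type} [Field F] [NumberField F]
    (A : Finset (HeightOneSpectrum (𝓞 F))) (p : ℕ) (hp : p.Prime)
    (hA : ∀ v ∈ A, absNorm v.asIdeal = p) : A.card ≤ finrank ℚ F := by
  classical
  obtain ⟨e, he⟩ := hC F
  have h : A.card ≤ (Finset.univ : Finset (Fin (finrank ℚ F))).card := by
    refine Finset.card_le_card_of_injOn e (fun _ _ => Finset.mem_coe.2 (mem_univ _)) ?_
    intro v hv w hw hvw
    have hv' := hA v (Finset.mem_coe.1 hv)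
    have hw' := hA w (Finset.mem_coe.1 hw)
    exact he v w (by rw [hv']; exact hp) (by rw [hv', hw']) hvw
  simpa using h

end SUMVx

theorem p_SUMV (hN : Stmt_NPR) (hC : Stmt_COL) : Stmt_SUMV := by
  classical
  intro F _ _ S h hh x hx
  have hinner : ∑ p ∈ pr x, ∑ v ∈ fib S p, h v =
      ∑ v ∈ (V S x).filter (fun v => absNorm v.asIdeal ∈ pr x), h v := by
    rw [← Finset.sum_fiberwise_of_maps_to
      (s := (V S x).filter (fun v => absNorm v.asIdeal ∈ pr x)) (t := pr x)
      (g := fun v => absNorm v.asIdeal) (fun v hv => (mem_filter.1 hv).2)]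
    refine sum_congr rfl fun p hp => sum_congr ?_ fun _ _ => rfl
    have hpx : p ≤ x := by
      have h1 := hp
      rw [pr, goodUpToQ, mem_filter, mem_Icc] at h1
      exact h1.1.2
    ext v
    simp only [fib, V, mem_filter, mem_upTo]
    constructor
    · rintro ⟨h1, h2, h3⟩
      refine ⟨⟨⟨?_, h2⟩, by rw [h3]; exact hp⟩, h3⟩
      rw [h3]
      exact_mod_cast hpx
    · rintro ⟨⟨⟨h1, h2⟩, h3⟩, h4⟩
      exact ⟨by rw [h4], h2, h4⟩
  have hsplit := Finset.sum_filter_add_sum_filter_not (V S x)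
    (fun v => absNorm v.asIdeal ∈ pr x) h
  set B := (V S x).filter (fun v => ¬ absNorm v.asIdeal ∈ pr x) with hB
  have hdiff : ∑ v ∈ V S x, h v - ∑ p ∈ pr x, ∑ v ∈ fib S p, h v = ∑ v ∈ B, h v := by
    rw [hinner, ← hsplit]
    ring
  rw [hdiff]
  have hnorm : ‖∑ v ∈ B, h v‖ ≤ (B.card : ℝ) := by
    refine (norm_sum_le _ _).trans ?_
    refine (Finset.sum_le_sum fun v _ => hh v).trans ?_
    simp
  refine hnorm.trans ?_
  set A := (upTo F (x : ℝ)).filter (fun v => ¬ (absNorm v.asIdeal).Prime) with hA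
  set B2 := (upTo F (x : ℝ)).filter (fun v => absNorm v.asIdeal = 2) with hB2
  set B5 := (upTo F (x : ℝ)).filter (fun v => absNorm v.asIdeal = 5) with hB5
  have hsub : B ⊆ A ∪ (B2 ∪ B5) := by
    intro v hv
    rw [hB, mem_filter, V, mem_filter] at hv
    obtain ⟨⟨h1, h2⟩, h3⟩ := hv
    have h1' : absNorm v.asIdeal ≤ x := by
      have := mem_upTo.1 h1
      exact_mod_cast this
    by_cases hpr : (absNorm v.asIdeal).Prime
    · apply mem_union_right
      by_cases e2 : absNorm v.asIdeal = 2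
      · exact mem_union_left _ (mem_filter.2 ⟨h1, e2⟩)
      · by_cases e5 : absNorm v.asIdeal = 5
        · exact mem_union_right _ (mem_filter.2 ⟨h1, e5⟩)
        · exact absurd (SUMVx.mem_pr hpr e2 e5 h1') h3
    · exact mem_union_left _ (mem_filter.2 ⟨h1, hpr⟩)
  have c2 : B2.card ≤ finrank ℚ F :=
    SUMVx.card_norm hC B2 2 Nat.prime_two fun v hv => (mem_filter.1 hv).2
  have c5 : B5.card ≤ finrank ℚ F :=
    SUMVx.card_norm hC B5 5 Nat.prime_five fun v hv => (mem_filter.1 hv).2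
  have cA : (A.card : ℝ) ≤ finrank ℚ F * Real.sqrt x := hN F x
  have hcard : (B.card : ℝ) ≤ A.card + (B2.card + B5.card) := by
    have h1 := (card_le_card hsub).trans (card_union_le _ _)
    have h2 := card_union_le B2 B5
    have h3 : B.card ≤ A.card + (B2.card + B5.card) := by omega
    exact_mod_cast h3
  have c2' : (B2.card : ℝ) ≤ finrank ℚ F := by exact_mod_cast c2
  have c5' : (B5.card : ℝ) ≤ finrank ℚ F := by exact_mod_cast c5
  have hs : 1 ≤ Real.sqrt x := by
    rw [Real.one_le_sqrt]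
    exact_mod_cast hx
  have hd : (0 : ℝ) ≤ finrank ℚ F := Nat.cast_nonneg _
  nlinarith [mul_le_mul_of_nonneg_left hs hd]

end Pool.NF
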