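import Pool.Agent.Work.MP_6dc561_nf.B_NPR

/-!
# WB: few primes above the divisors of `q`
-/

set_option autoImplicit false

open NumberField IsDedekindDomain Ideal Polynomial Finset Module

namespace Pool.NF

open Pool.Agent.Work.MP_6dc561_nt
open Pool.DS

namespace WB

theorem card_primeFactors_le (q : ℕ) (hq : q ≠ 0) :
    (q.primeFactors.card : ℝ) ≤ 2 * Real.log q := by
  have hle : ∏ p ∈ q.primeFactors, p ≤ q :=
    Nat.le_of_dvd (Nat.pos_of_ne_zero hq) (Nat.prod_primeFactors_dvd q)
  have h2 : 2 ^ q.primeFactors.card ≤ ∏ p ∈ q.primeFactors, p := by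
    calc 2 ^ q.primeFactors.card = ∏ _p ∈ q.primeFactors, 2 := by rw [prod_const]
      _ ≤ ∏ p ∈ q.primeFactors, p :=
        Finset.prod_le_prod' fun p hp => (Nat.prime_of_mem_primeFactors hp).two_le
  have h4 : (2 : ℝ) ^ q.primeFactors.card ≤ q := by exact_mod_cast h2.trans hle
  have h5 : (q.primeFactors.card : ℝ) * Real.log 2 ≤ Real.log q := by
    rw [← Real.log_pow]
    exact Real.log_le_log (by positivity) h4
  have h6 := Real.log_two_gt_d9
  have h7 : (0 : ℝ) ≤ q.primeFactors.card := Nat.cast_nonneg _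
  nlinarith

end WB

theorem p_WB : Stmt_WB := by
  classical
  intro F _ _ S q hq x
  set B := (V S x).filter (fun v => ¬ (absNorm v.asIdeal).Coprime q) with hB
  have hmap : ∀ w ∈ B, Pool.Agent.Work.MP_6dc561_nt.BC.ch w ∈ q.primeFactors := by
    intro w hw
    rw [hB, mem_filter] at hw
    obtain ⟨h1, _, n, hn, h3⟩ := Pool.Agent.Work.MP_6dc561_nt.BC.ch_spec w
    rw [Nat.mem_primeFactors]
    refine ⟨h1, ?_, NeZero.ne q⟩
    by_contra h4
    apply hw.2
    rw [h3]
    exact Nat.Coprime.pow_left n ((Nat.Prime.coprime_iff_not_dvd h1).2 h4)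
  have hcard : B.card ≤ finrank ℚ F * q.primeFactors.card := by
    rw [Finset.card_eq_sum_card_fiberwise hmap]
    calc ∑ p ∈ q.primeFactors,
          (B.filter (fun w => Pool.Agent.Work.MP_6dc561_nt.BC.ch w = p)).card
        ≤ ∑ p ∈ q.primeFactors, finrank ℚ F :=
          Finset.sum_le_sum fun p _ => NPR.fiber B p
      _ = finrank ℚ F * q.primeFactors.card := by
          rw [Finset.sum_const, smul_eq_mul, mul_comm]
  have h5 : (B.card : ℝ) ≤ finrank ℚ F * (2 * Real.log q) := by
    calc (B.card : ℝ) ≤ ((finrank ℚ F * q.primeFactors.card : ℕ) : ℝ) := by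
          exact_mod_cast hcard
      _ = finrank ℚ F * (q.primeFactors.card : ℝ) := by push_cast; ring
      _ ≤ finrank ℚ F * (2 * Real.log q) :=
          mul_le_mul_of_nonneg_left (WB.card_primeFactors_le q (NeZero.ne q)) (Nat.cast_nonneg _)
  convert h5

end Pool.NF
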