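import Pool.Agent.Work.MP_6dc561_nf.I

/-! # FLDF: class fields over `F` -/

set_option autoImplicit false

open NumberField IsDedekindDomain Ideal Polynomial Finset Module

namespace Pool.NF

open Pool.Agent.Work.MP_6dc561_nt.PS (LipR)
open Pool.Agent.Work.MP_6dc561_nt.AB (InCoset Ch Prim ev ann indCh)
open Pool.DS

namespace FLDF

theorem abs_sum_le {U : Type} (A : Finset U) (g : U → ℝ) (hg : ∀ u, |g u| ≤ 1) :
    |∑ u ∈ A, g u| ≤ A.card := by
  calc |∑ u ∈ A, g u| ≤ ∑ u ∈ A, |g u| := abs_sum_le_sum_abs _ _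
    _ ≤ ∑ _u ∈ A, (1 : ℝ) := sum_le_sum fun u _ => hg u
    _ = A.card := by rw [sum_const, nsmul_eq_mul, mul_one]

theorem abs_avg_le {U : Type} (A : Finset U) (g : U → ℝ) (hg : ∀ u, |g u| ≤ 1) :
    |(∑ u ∈ A, g u) / (A.card : ℝ)| ≤ 1 := by
  rw [abs_div, Nat.abs_cast]
  exact div_le_one_of_le₀ (abs_sum_le A g hg) (Nat.cast_nonneg _)

end FLDF

open Classical in
theorem p_FLDF (hG : Stmt_COSG) (hW : Stmt_WB) (hF : Stmt_FLDG) : Stmt_FLDF := by
  intro F K _ _ _ _ _ S t R Q E x η hη hgood q _ hqQ H hY hsp G hLip h hh hhg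
  have hd1 : 1 ≤ (finrank ℚ F : ℝ) := by
    have : 0 < finrank ℚ F := finrank_pos
    exact_mod_cast this
  have hi1 : 1 ≤ (H.index : ℝ) := by
    have : H.index ≠ 0 := Subgroup.index_ne_zero_of_finite
    exact_mod_cast Nat.one_le_iff_ne_zero.2 this
  set d : ℝ := (finrank ℚ F : ℝ) with hd
  set i : ℝ := (H.index : ℝ) with hi
  have hdi : 1 ≤ d * i := by nlinarith
  have hKd : (finrank ℚ K : ℝ) = d * i := by
    have h1 : finrank ℚ F * finrank F K = finrank ℚ K := finrank_mul_finrank ℚ F K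
    rw [← h1, hsp.1]
    push_cast
    rfl
  set g : HeightOneSpectrum (𝓞 F) → ℝ := fun v => G (t v).1 (t v).2 with hg
  have hg1 : ∀ v, |g v| ≤ 1 := fun v => hLip.le_one _ _
  set A : Finset (HeightOneSpectrum (𝓞 K)) := (upTo K x).filter (fun w => below F w ∉ S) with hA
  rcases hgood with h2 | hgd
  · have a1 : |(∑ w ∈ A, h w) / (A.card : ℝ)| ≤ 1 := FLDF.abs_avg_le A h hh
    have a2 : |avg S g x| ≤ 1 := FLDF.abs_avg_le (V S x) g hg1
    have a3 := abs_sub ((∑ w ∈ A, h w) / (A.card : ℝ)) (avg S g x)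
    have a4 : 2 ≤ d * i * η := by nlinarith
    have a5 : 32 * d * i * η = 32 * (d * i * η) := by ring
    rw [a5]
    linarith
  set N : ℝ := ((V S x).card : ℝ) with hN
  have hN0 : 0 < N := by rw [hN]; exact_mod_cast hgd.pos
  have hηN : 0 ≤ η * N := by positivity
  have hq1 : 1 ≤ q := Nat.one_le_iff_ne_zero.2 (NeZero.ne q)
  have hlog : Real.log q ≤ Real.log Q := by
    refine Real.log_le_log ?_ ?_
    · exact_mod_cast hq1
    · exact_mod_cast hqQ
  have hlog2 : 2 * Real.log q ≤ η * N := by linarith [hgd.log_le]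
  have hwb := hW F S q x
  have hwb2 : (((V S x).filter (fun v => ¬ (absNorm v.asIdeal).Coprime q)).card : ℝ) ≤
      d * (η * N) := hwb.trans (mul_le_mul_of_nonneg_left hlog2 (by linarith))
  have b1 : |i * ∑ v ∈ (V S x).filter (fun v => InCoset H 1 (absNorm v.asIdeal)), g v -
      ∑ v ∈ V S x, g v| ≤ i * (η * N + d * (η * N)) :=
    hG (HeightOneSpectrum (𝓞 F)) (V S x) (fun v => absNorm v.asIdeal) g q Q E (η * N)
      (d * (η * N)) H 1 hg1 hqQ hηN (fun y hy hyE => hgd.sum y hy hyE G hLip) hwb2 hY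
  have b2 : |i * ∑ v ∈ (V S x).filter (fun v => InCoset H 1 (absNorm v.asIdeal)), (1 : ℝ) -
      ∑ v ∈ V S x, (1 : ℝ)| ≤ i * (η * N + d * (η * N)) :=
    hG (HeightOneSpectrum (𝓞 F)) (V S x) (fun v => absNorm v.asIdeal) (fun _ => 1) q Q E (η * N)
      (d * (η * N)) H 1 (fun _ => by rw [abs_one]) hqQ hηN (fun y hy hyE => by
        have := hgd.one_sum y hy hyE
        simpa using this) hwb2 hY
  have c1 := hF F K S q H x h g hh hg1 hhg hsp
  have c2 := hF F K S q H x (fun _ => 1) (fun _ => 1) (fun _ => by rw [abs_one])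
    (fun _ => by rw [abs_one]) (fun _ _ => rfl) hsp
  rw [← hA, hKd] at c1 c2
  rw [← hi] at c1 c2
  have e1 : ∑ v ∈ V S x, (1 : ℝ) = N := by rw [sum_const, nsmul_eq_mul, mul_one]
  have e2 : ∑ w ∈ A, (1 : ℝ) = A.card := by rw [sum_const, nsmul_eq_mul, mul_one]
  rw [e1] at b2
  rw [e2] at c2
  set SK : ℝ := ∑ w ∈ A, h w with hSK
  set S0 : ℝ := ∑ v ∈ V S x, g v with hS0
  set Sa : ℝ := ∑ v ∈ (V S x).filter (fun v => InCoset H 1 (absNorm v.asIdeal)), g v with hSa
  set Na : ℝ := ∑ v ∈ (V S x).filter (fun v => InCoset H 1 (absNorm v.asIdeal)), (1 : ℝ) with hNa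
  have hS0N : |S0| ≤ N := FLDF.abs_sum_le (V S x) g hg1
  have hSKN : |SK| ≤ A.card := FLDF.abs_sum_le A h hh
  have hdi0 : 0 ≤ d * i := by linarith
  have dd : 3 * (d * i) * (Real.sqrt x + 2 * Real.log q) ≤ 3 * (d * i) * (η * N + η * N) :=
    mul_le_mul_of_nonneg_left (add_le_add hgd.sqrt_le hlog2) (by linarith)
  have ee : i * (η * N + d * (η * N)) ≤ 2 * (d * i) * (η * N) := by
    have h3 : i * (η * N) ≤ d * i * (η * N) :=
      mul_le_mul_of_nonneg_right (by nlinarith) hηN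
    nlinarith
  have hsum1 : |SK - S0| ≤ 8 * (d * i) * η * N := by
    have e : SK - S0 = (SK - i * Sa) + (i * Sa - S0) := by ring
    rw [e]
    refine (abs_add_le _ _).trans ?_
    have k1 := c1.trans dd
    have k2 := b1.trans ee
    have k3 : 8 * (d * i) * η * N = 3 * (d * i) * (η * N + η * N) + 2 * (d * i) * (η * N) := by
      ring
    rw [k3]
    exact add_le_add k1 k2
  have hsum2 : |(A.card : ℝ) - N| ≤ 8 * (d * i) * η * N := by
    have e : (A.card : ℝ) - N = (A.card - i * Na) + (i * Na - N) := by ring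
    rw [e]
    refine (abs_add_le _ _).trans ?_
    have k1 := c2.trans dd
    have k2 := b2.trans ee
    have k3 : 8 * (d * i) * η * N = 3 * (d * i) * (η * N + η * N) + 2 * (d * i) * (η * N) := by
      ring
    rw [k3]
    exact add_le_add k1 k2
  have key := Pool.Agent.Work.MP_6dc561_nt.AB.ratio hN0 (Nat.cast_nonneg A.card) hS0N hSKN
    hsum1 hsum2
  have havg : avg S g x = S0 / N := rfl
  rw [havg]
  exact key.trans (le_of_eq (by ring))

end Pool.NF
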