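import Pool.Agent.Work.MP_6dc561_nf.I

/-!
# FLDG: sums over the primes of a class field
-/

set_option autoImplicit false

open NumberField IsDedekindDomain Ideal Polynomial Finset Module

namespace Pool.NF

open Pool.Agent.Work.MP_6dc561_nt
open Pool.Agent.Work.MP_6dc561_nt.AB (InCoset Ch Prim ev ann indCh IsCharOf)
open Pool.DS

open scoped Classical in
open DG1 in
theorem p_FLDG (hN : Stmt_NPR) (hW : Stmt_WB) : Stmt_FLDG := by
  intro F K _ _ _ _ _ S q _ H x h g hh hg hwg hsp
  obtain ⟨hidx, hspl⟩ := hsp
  have hx0 : (0 : ℝ) ≤ (x : ℝ) := Nat.cast_nonneg _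
  have hlog : 0 ≤ Real.log q := Real.log_natCast_nonneg q
  obtain ⟨g', hg'D⟩ : ∃ g' : HeightOneSpectrum (𝓞 F) → ℝ, ∀ v, g' v = if v ∉ S then g v else 0 :=
    ⟨_, fun _ => rfl⟩
  have hg' : ∀ v, |g' v| ≤ 1 := by
    intro v
    rw [hg'D]
    split_ifs <;> first | exact hg v | (rw [abs_zero]; exact zero_le_one)
  -- first step
  have e1 : ∑ w ∈ (upTo K x).filter (fun w => below F w ∉ S), h w =
      ∑ w ∈ upTo K x, (if below F w ∉ S then h w else 0) := Finset.sum_filter _ _
  have e2 : ∑ v ∈ upTo F x, (degOne F K v : ℝ) * g' v =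
      ∑ w ∈ upTo K x, (if absNorm w.asIdeal = absNorm (below F w).asIdeal then
        g' (below F w) else 0) := by
    rw [sum_group, Finset.sum_filter]
  have h1 : |∑ w ∈ (upTo K x).filter (fun w => below F w ∉ S), h w -
      ∑ v ∈ upTo F x, (degOne F K v : ℝ) * g' v| ≤ finrank ℚ K * Real.sqrt x := by
    rw [e1, e2, ← Finset.sum_sub_distrib]
    have hb : ∀ w ∈ upTo K x, |(if below F w ∉ S then h w else 0) -
        (if absNorm w.asIdeal = absNorm (below F w).asIdeal then g' (below F w) else 0)| ≤
        (if ¬ absNorm w.asIdeal = absNorm (below F w).asIdeal then (1 : ℝ) else 0) := by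
      intro w _
      by_cases hn : absNorm w.asIdeal = absNorm (below F w).asIdeal
      · rw [if_pos hn, if_neg (not_not.2 hn), hg'D, hwg w hn, sub_self, abs_zero]
      · rw [if_neg hn, if_pos hn, sub_zero]
        split_ifs <;> first | exact hh w | (rw [abs_zero]; exact zero_le_one)
    refine (Finset.abs_sum_le_sum_abs _ _).trans ((Finset.sum_le_sum hb).trans ?_)
    rw [← Finset.sum_filter, Finset.sum_const, nsmul_eq_mul, mul_one]
    exact bad_card F K x hx0 _ (fun w hw => Finset.mem_filter.mp hw)
  -- second step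
  have e3 : (H.index : ℝ) * ∑ v ∈ (V S x).filter (fun v => InCoset H 1 (absNorm v.asIdeal)), g v =
      ∑ v ∈ V S x, (if InCoset H 1 (absNorm v.asIdeal) then (H.index : ℝ) else 0) * g v := by
    rw [Finset.mul_sum, Finset.sum_filter]
    refine Finset.sum_congr rfl fun v _ => ?_
    split_ifs <;> simp
  have e4 : ∑ v ∈ upTo F x, (degOne F K v : ℝ) * g' v =
      ∑ v ∈ V S x, (degOne F K v : ℝ) * g v := by
    unfold V
    rw [Finset.sum_filter]
    refine Finset.sum_congr rfl fun v _ => ?_
    rw [hg'D]
    split_ifs <;> simp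
  have hdeg : ∀ v, (degOne F K v : ℝ) ≤ finrank F K := by
    intro v
    exact_mod_cast (stmt_DGB F K v).2.2.1
  have hidxr : (H.index : ℝ) = finrank F K := by
    rw [hidx]
  have h2 : |∑ v ∈ V S x, (degOne F K v : ℝ) * g v -
      ∑ v ∈ V S x, (if InCoset H 1 (absNorm v.asIdeal) then (H.index : ℝ) else 0) * g v| ≤
      finrank F K * (finrank ℚ F * Real.sqrt x + finrank ℚ F * (2 * Real.log q)) := by
    rw [← Finset.sum_sub_distrib]
    have hb : ∀ v ∈ V S x, |(degOne F K v : ℝ) * g v -
        (if InCoset H 1 (absNorm v.asIdeal) then (H.index : ℝ) else 0) * g v| ≤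
        (if ¬ (absNorm v.asIdeal).Prime then (finrank F K : ℝ) else 0) +
        (if ¬ (absNorm v.asIdeal).Coprime q then (finrank F K : ℝ) else 0) := by
      intro v _
      have hfin : (0 : ℝ) ≤ finrank F K := Nat.cast_nonneg _
      have hgen : |(degOne F K v : ℝ) * g v -
          (if InCoset H 1 (absNorm v.asIdeal) then (H.index : ℝ) else 0) * g v| ≤
          finrank F K := by
        rw [← sub_mul, abs_mul]
        have h3 : |(degOne F K v : ℝ) -
            (if InCoset H 1 (absNorm v.asIdeal) then (H.index : ℝ) else 0)| ≤ finrank F K := by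
          have h4 := hdeg v
          have h5 : (0 : ℝ) ≤ degOne F K v := Nat.cast_nonneg _
          rw [abs_le]
          split_ifs
          · constructor <;> linarith
          · constructor <;> linarith
        calc _ ≤ (finrank F K : ℝ) * 1 :=
              mul_le_mul h3 (hg v) (abs_nonneg _) hfin
          _ = _ := mul_one _
      by_cases hp : (absNorm v.asIdeal).Prime
      · by_cases hc : (absNorm v.asIdeal).Coprime q
        · rw [if_neg (not_not.2 hp), if_neg (not_not.2 hc), hspl v hp hc, add_zero]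
          apply le_of_eq
          rw [abs_eq_zero]
          split_ifs <;> simp
        · rw [if_neg (not_not.2 hp), if_pos hc, zero_add]
          exact hgen
      · rw [if_pos hp]
        have : (0 : ℝ) ≤ (if ¬ (absNorm v.asIdeal).Coprime q then (finrank F K : ℝ) else 0) := by
          split_ifs <;> first | exact hfin | exact le_rfl
        linarith
    refine (Finset.abs_sum_le_sum_abs _ _).trans ((Finset.sum_le_sum hb).trans ?_)
    rw [Finset.sum_add_distrib, ← Finset.sum_filter, ← Finset.sum_filter, Finset.sum_const,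
      Finset.sum_const, nsmul_eq_mul, nsmul_eq_mul]
    have h6 : (((V S x).filter (fun v => ¬ (absNorm v.asIdeal).Prime)).card : ℝ) ≤
        finrank ℚ F * Real.sqrt x := by
      refine le_trans ?_ (hN F x)
      have : ((V S x).filter (fun v => ¬ (absNorm v.asIdeal).Prime)).card ≤
          ((upTo F x).filter (fun v => ¬ (absNorm v.asIdeal).Prime)).card := by
        apply Finset.card_le_card
        intro v hv
        rw [Finset.mem_filter] at hv ⊢
        exact ⟨(Finset.mem_filter.1 hv.1).1, hv.2⟩
      exact_mod_cast this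
    have h7 := hW F S q x
    have hfin : (0 : ℝ) ≤ finrank F K := Nat.cast_nonneg _
    have h8 := mul_le_mul_of_nonneg_right h6 hfin
    have h9 := mul_le_mul_of_nonneg_right h7 hfin
    linarith
  rw [e4] at h1
  rw [e3]
  have hmul : (finrank F K : ℝ) * finrank ℚ F = finrank ℚ K := by
    have := finrank_mul_finrank ℚ F K
    rw [← this]
    push_cast
    ring
  have h10 := abs_sub_le (∑ w ∈ (upTo K x).filter (fun w => below F w ∉ S), h w)
    (∑ v ∈ V S x, (degOne F K v : ℝ) * g v)
    (∑ v ∈ V S x, (if InCoset H 1 (absNorm v.asIdeal) then (H.index : ℝ) else 0) * g v)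
  have e5 : (finrank F K : ℝ) * (finrank ℚ F * Real.sqrt x + finrank ℚ F * (2 * Real.log q)) =
      finrank ℚ K * (Real.sqrt x + 2 * Real.log q) := by
    rw [← hmul]
    ring
  rw [e5] at h2
  have hs : 0 ≤ Real.sqrt x := Real.sqrt_nonneg _
  have hK : (0 : ℝ) ≤ finrank ℚ K := Nat.cast_nonneg _
  have h11 : 0 ≤ (finrank ℚ K : ℝ) * Real.sqrt x := mul_nonneg hK hs
  have h12 : 0 ≤ (finrank ℚ K : ℝ) * (2 * Real.log q) := by positivity
  nlinarith

end Pool.NF
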