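import Pool.Agent.Work.MP_6dc561_nf.I2

/-!
# Block ORT: orthogonality of the characters of a finite abelian group (helper60)
-/

set_option autoImplicit false

namespace Pool.NF

theorem p_ORT : Stmt_ORT := by
  intro G _ _
  have e := (CommGroup.monoidHom_mulEquiv_of_hasEnoughRootsOfUnity G ℂ).some
  refine ⟨Finite.of_equiv G e.symm.toEquiv, ?_⟩
  intro _
  have hc : Fintype.card (G →* ℂˣ) = Nat.card G := by
    rw [← Nat.card_eq_fintype_card]
    exact CommGroup.card_monoidHom_of_hasEnoughRootsOfUnity G ℂ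
  refine ⟨hc, fun g => ?_⟩
  split_ifs with hg
  · subst hg
    simp only [map_one, Units.val_one, Finset.sum_const, Finset.card_univ, nsmul_eq_mul, mul_one, hc]
  · obtain ⟨φ, hφ⟩ := CommGroup.exists_apply_ne_one_of_hasEnoughRootsOfUnity G ℂ hg
    have h1 : ∑ θ : G →* ℂˣ, ((θ g : ℂˣ) : ℂ) = ∑ θ : G →* ℂˣ, (((φ * θ) g : ℂˣ) : ℂ) :=
      (Equiv.sum_comp (Equiv.mulLeft φ) (fun θ : G →* ℂˣ => ((θ g : ℂˣ) : ℂ))).symm
    have h2 : ∑ θ : G →* ℂˣ, ((θ g : ℂˣ) : ℂ) = ((φ g : ℂˣ) : ℂ) * ∑ θ : G →* ℂˣ, ((θ g : ℂˣ) : ℂ) := by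
      conv_lhs => rw [h1]
      rw [Finset.mul_sum]
      refine Finset.sum_congr rfl fun θ _ => ?_
      rw [MonoidHom.mul_apply, Units.val_mul]
    have h3 : (((φ g : ℂˣ) : ℂ) - 1) * ∑ θ : G →* ℂˣ, ((θ g : ℂˣ) : ℂ) = 0 := by
      rw [sub_mul, one_mul, ← h2, sub_self]
    rcases mul_eq_zero.1 h3 with h4 | h4
    · exact absurd (Units.ext (sub_eq_zero.1 h4)) hφ
    · exact h4

end Pool.NF
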