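import Pool.Agent.Work.MP_6dc561_nf.I

/-!
# Abelian extensions of a number field inside cyclotomic extensions: interface
-/

set_option autoImplicit false

open NumberField IsDedekindDomain Ideal Polynomial Finset Module

namespace Pool.NF

open Pool.Agent.Work.MP_6dc561_nt
open Pool.Agent.Work.MP_6dc561_nt.AA (goodUpToQ)
open Pool.Agent.Work.MP_6dc561_nt.PS (LipR)
open Pool.Agent.Work.MP_6dc561_nt.AB (InCoset Ch Prim ev ann indCh IsCharOf)
open Pool.DS

/-- the splitting law of `K / F` in terms of a family of Dirichlet characters modulo `q` -/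
def Law (F K : Type) [Field F] [NumberField F] [Field K] [NumberField K] [Algebra F K] (q : ℕ)
    (Θ : Type) [Fintype Θ] (χ : Θ → DirichletCharacter ℂ q) (θ₀ : Θ) : Prop :=
  χ θ₀ = 1 ∧ Fintype.card Θ = finrank F K ∧ ∀ v : HeightOneSpectrum (𝓞 F),
    (absNorm v.asIdeal).Prime → (absNorm v.asIdeal).Coprime q →
    (degOne F K v : ℂ) = ∑ θ : Θ, χ θ (absNorm v.asIdeal : ZMod q)

open Classical in
/-- **FLDX**: extensions with a splitting law given by characters outside `E` -/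
def Stmt_FLDX : Prop := ∀ (F K : Type) [Field F] [NumberField F] [Field K] [NumberField K] [Algebra F K]
  (S : Set (HeightOneSpectrum (𝓞 F)))
  (t : HeightOneSpectrum (𝓞 F) → ℝ × ℝ) (R : ℝ) (Q : ℕ) (E : Finset Ch) (x : ℕ) (η : ℝ), 0 ≤ η →
  (2 ≤ η ∨ GoodF S t R Q E x η) → ∀ (q : ℕ) [NeZero q], q ≤ Q →
  ∀ (Θ : Type) [Fintype Θ] (χ : Θ → DirichletCharacter ℂ q) (θ₀ : Θ), Law F K q Θ χ θ₀ →
  (∀ θ, θ ≠ θ₀ → χ θ ≠ 1 ∧ indCh (χ θ) ∉ E) → ∀ (G : ℝ → ℝ → ℝ), LipR R G →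
  ∀ h : HeightOneSpectrum (𝓞 K) → ℝ, (∀ w, |h w| ≤ 1) →
  (∀ w, absNorm w.asIdeal = absNorm (below F w).asIdeal →
    h w = G (t (below F w)).1 (t (below F w)).2) →
  |(∑ w ∈ (upTo K x).filter (fun w => below F w ∉ S), h w) /
      (((upTo K x).filter (fun w => below F w ∉ S)).card : ℝ) -
    avg S (fun v => G (t v).1 (t v).2) x| ≤ 32 * finrank ℚ F * finrank F K * η

/-- The Dirichlet character `χ` modulo `q` gives the character `θ` of `Gal(K/F)`: if an automorphism `σ` of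
`M` over `F` induces `τ` on `K` and raises the `q`-th roots of unity to the power `k`, then
`χ(k) = θ(τ)`. -/
def Induces (F K M : Type) [Field F] [Field K] [Field M] [Algebra F K] [Algebra K M] [Algebra F M]
    (q : ℕ) (χ : DirichletCharacter ℂ q) (θ : Gal(K/F) →* ℂˣ) : Prop :=
  ∀ (σ : Gal(M/F)) (τ : Gal(K/F)) (k : ℕ), (∀ z : K, σ (algebraMap K M z) = algebraMap K M (τ z)) →
    (∀ ζ : M, ζ ^ q = 1 → σ ζ = ζ ^ k) → χ (k : ZMod q) = θ τ

/-- **SPLX**: the splitting law of the subextensions of a cyclotomic extension -/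
def Stmt_SPLX : Prop := ∀ (F K M : Type) [Field F] [NumberField F] [Field K] [NumberField K] [Field M]
  [NumberField M] [Algebra F K] [Algebra K M] [Algebra F M] [IsScalarTower F K M] (q : ℕ) [NeZero q]
  [IsCyclotomicExtension {q} F M],
  Finite (Gal(K/F) →* ℂˣ) ∧ ∀ [Fintype (Gal(K/F) →* ℂˣ)] (χ : (Gal(K/F) →* ℂˣ) → DirichletCharacter ℂ q),
    χ 1 = 1 → (∀ θ, θ ≠ 1 → Induces F K M q (χ θ) θ) →
    Law F K q (Gal(K/F) →* ℂˣ) χ 1 ∧ ∀ θ, θ ≠ 1 → χ θ ≠ 1

open Classical in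
/-- **ORT**: orthogonality of the characters of a finite abelian group -/
def Stmt_ORT : Prop := ∀ (G : Type) [CommGroup G] [Finite G],
  Finite (G →* ℂˣ) ∧ ∀ [Fintype (G →* ℂˣ)], Fintype.card (G →* ℂˣ) = Nat.card G ∧
    ∀ g : G, ∑ θ : G →* ℂˣ, ((θ g : ℂˣ) : ℂ) = if g = 1 then (Nat.card G : ℂ) else 0

end Pool.NF
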