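import Pool.Agent.Work.MP_6dc561_nf.Fin
import Pool.Agent.Work.MP_6dc561_nf.I2

/-!
# Local data of a system of equations in the subextensions of cyclotomic extensions: assembly
-/

set_option autoImplicit false

open NumberField IsDedekindDomain Ideal Polynomial Finset Module

namespace Pool.NF

open Pool.Agent.Work.MP_6dc561_nt
open Pool.Agent.Work.MP_6dc561_nt.PS (LipR)
open Pool.Agent.Work.MP_6dc561_nt.AB (InCoset Ch Prim ev ann indCh IsCharOf)
open Pool.DS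
open Pool.SV (count primesUpTo average)

theorem main2 (hCORE : Stmt_CORE) (hCOSF : Stmt_COSF) (hFLDX : Stmt_FLDX) (hSPLX : Stmt_SPLX)
    {F : Type} [Field F] [NumberField F] {σ : Type} (Φ : Set (MvPolynomial σ (𝓞 F)))
    (T : HeightOneSpectrum (𝓞 F) → ℕ → (ℕ → ℕ) → ℝ × ℝ)
    (S : Set (HeightOneSpectrum (𝓞 F))) (hS : S.Finite) (R δ κ : ℝ) (hκ : 0 < κ)
    (hκδ : 184 * κ ≤ δ) (hκ120 : 120 * κ ≤ 1) :
    ∃ C : ℝ, ∀ Q : ℕ, 2 ≤ Q → ∃ E : Finset (Σ r : ℕ, DirichletCharacter ℂ r),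
      (E.card : ℝ) ≤ C * (Q : ℝ) ^ δ ∧
      (∀ y ∈ E, y.1 ≤ Q ∧ y.2.IsPrimitive ∧ y.2 ≠ 1) ∧
      ∀ x : ℕ, (Real.log Q) ^ (1 / κ) ≤ x → (x : ℝ) ≤ Real.exp ((Q : ℝ) ^ κ) →
      ∀ G : ℝ → ℝ → ℝ, LipR R G →
        (∀ (r : ℕ) (χ : DirichletCharacter ℂ r), 1 ≤ r → r ≤ Q → χ.IsPrimitive → χ ≠ 1 →
          (⟨r, χ⟩ : Σ r : ℕ, DirichletCharacter ℂ r) ∉ E →
          ‖(∑ᶠ v ∈ primesUpTo S F x, (G (datum Φ T v).1 (datum Φ T v).2 : ℂ) *
            χ (absNorm v.asIdeal : ZMod r)) / ((primesUpTo S F x).ncard : ℂ)‖ ≤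
            C * (min (x : ℝ) Q) ^ (-κ)) ∧
        (∀ (q : ℕ) (H : Subgroup (ZMod q)ˣ) (a : (ZMod q)ˣ), 1 ≤ q → q ≤ Q →
          (∀ χ : DirichletCharacter ℂ q, (∀ u ∈ H, χ (u : ZMod q) = 1) →
            (⟨χ.conductor, χ.primitiveCharacter⟩ : Σ r : ℕ, DirichletCharacter ℂ r) ∉ E) →
          |meanOn Φ T G F {v | v ∈ primesUpTo S F x ∧ InCoset H a (absNorm v.asIdeal)} -
            meanOn Φ T G F (primesUpTo S F x)| ≤ C * H.index * (min (x : ℝ) Q) ^ (-κ)) ∧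
        (∀ (K M : Type) [Field K] [NumberField K] [Field M] [NumberField M] [Algebra F K] [Algebra K M]
          [Algebra F M] [IsScalarTower F K M] (q : ℕ) [IsCyclotomicExtension {q} F M], 1 ≤ q → q ≤ Q →
          (∀ θ : Gal(K/F) →* ℂˣ, θ ≠ 1 → ∃ χ : DirichletCharacter ℂ q, Induces F K M q χ θ ∧
            (⟨χ.conductor, χ.primitiveCharacter⟩ : Σ r : ℕ, DirichletCharacter ℂ r) ∉ E) →
          |meanOn Φ T G K (primesUpTo S K x) - meanOn Φ T G F (primesUpTo S F x)| ≤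
            C * finrank F K * (min (x : ℝ) Q) ^ (-κ)) := by
  classical
  obtain ⟨A, hA1, hA⟩ := hCORE F S hS (fun v => datum Φ T (K := F) v) R δ κ hκ hκδ hκ120
  have hd1 : 1 ≤ finrank ℚ F := Module.finrank_pos
  have hd1r : (1 : ℝ) ≤ (finrank ℚ F : ℝ) := by exact_mod_cast hd1
  have hAd : A ≤ 32 * finrank ℚ F * A := by nlinarith
  refine ⟨32 * finrank ℚ F * A, fun Q hQ => ?_⟩
  obtain ⟨E, hE1, hE2, hE3⟩ := hA Q hQ
  have hQ2 : (2 : ℝ) ≤ Q := by exact_mod_cast hQ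
  have hQδ : 0 ≤ (Q : ℝ) ^ δ := Real.rpow_nonneg (by linarith) _
  refine ⟨E, ?_, fun y hy => ?_, fun x hx1 hx2 G hG => ?_⟩
  · exact hE1.trans (mul_le_mul_of_nonneg_right hAd hQδ)
  · obtain ⟨-, h2, h3, h4⟩ := AB.mem_Prim.1 (hE2 hy)
    exact ⟨h2, h3, h4⟩
  obtain ⟨hx, h⟩ := hE3 x hx1 hx2
  have hxr : (1 : ℝ) ≤ x := by exact_mod_cast hx
  have hm1 : 1 ≤ min (x : ℝ) Q := le_min hxr (by linarith)
  have hm0 : 0 < min (x : ℝ) Q := by linarith
  have hmκ : 0 < (min (x : ℝ) Q) ^ (-κ) := Real.rpow_pos_of_pos hm0 _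
  set m : ℝ := (min (x : ℝ) Q) ^ (-κ) with hm
  have hη : 0 ≤ A * m := by positivity
  refine ⟨fun r χ hr hrQ hχ hχ1 hχE => ?_, fun q H a hq hqQ hY => ?_,
    fun K M _ _ _ _ _ _ _ _ q _ hq hqQ hY => ?_⟩
  · have h1 : (⟨r, χ⟩ : Ch) ∈ Prim Q := AB.mem_Prim.2 ⟨Nat.pos_iff_ne_zero.1 hr, hrQ, hχ, hχ1⟩
    rw [primes_self, finsum_mem_coe_finset, Set.ncard_coe_finset]
    have h2 : ‖∑ v ∈ V S x, (G (datum Φ T v).1 (datum Φ T v).2 : ℂ) *
        χ (absNorm v.asIdeal : ZMod r)‖ ≤ A * m * (V S x).card := by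
      rcases h with h | h
      · calc ‖∑ v ∈ V S x, (G (datum Φ T v).1 (datum Φ T v).2 : ℂ) *
              χ (absNorm v.asIdeal : ZMod r)‖ ≤ ∑ v ∈ V S x, (1 : ℝ) := by
              refine norm_sum_le_of_le _ fun v _ => ?_
              rw [norm_mul, Complex.norm_real, Real.norm_eq_abs]
              exact mul_le_one₀ (hG.le_one _ _) (norm_nonneg _) (χ.norm_le_one _)
          _ = 1 * (V S x).card := by simp
          _ ≤ _ := by
              apply mul_le_mul_of_nonneg_right _ (Nat.cast_nonneg _)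
              linarith
      · exact h.sum ⟨r, χ⟩ h1 hχE G hG
    rw [norm_div, Complex.norm_natCast]
    rcases Nat.eq_zero_or_pos (V S x).card with h0 | h0
    · rw [h0, Nat.cast_zero, div_zero]
      have : 0 ≤ A := by linarith
      positivity
    · have h3 : (0 : ℝ) < (V S x).card := by exact_mod_cast h0
      rw [div_le_iff₀ h3]
      refine h2.trans ?_
      apply mul_le_mul_of_nonneg_right _ h3.le
      exact mul_le_mul_of_nonneg_right hAd hmκ.le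
  · have : NeZero q := ⟨by omega⟩
    rw [mean_coset, mean_self]
    refine (hCOSF F S (fun v => datum Φ T (K := F) v) R Q E x (A * m) hη h q hqQ H
      (fun χ hχ _ => hY χ (AB.mem_ann.1 hχ)) a G hG).trans ?_
    have h1 : (0 : ℝ) ≤ H.index := Nat.cast_nonneg _
    have h2 : 0 ≤ (finrank ℚ F : ℝ) * H.index * (A * m) := by positivity
    calc 8 * (finrank ℚ F : ℝ) * H.index * (A * m) = 8 * ((finrank ℚ F : ℝ) * H.index * (A * m)) := by
          ring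
      _ ≤ 32 * ((finrank ℚ F : ℝ) * H.index * (A * m)) := by linarith
      _ = 32 * finrank ℚ F * A * H.index * m := by ring
  · have : NeZero q := ⟨by omega⟩
    obtain ⟨hfin, hlaw⟩ := hSPLX F K M q
    let _ : Fintype (Gal(K/F) →* ℂˣ) := Fintype.ofFinite _
    choose! χ hχ1 hχ2 using hY
    have h1 : ∀ θ : Gal(K/F) →* ℂˣ, θ ≠ 1 → (Function.update χ 1 1) θ = χ θ := fun θ hθ =>
      Function.update_of_ne hθ _ _
    obtain ⟨hL1, hL2⟩ := hlaw (Function.update χ 1 1) (Function.update_self _ _ _) (fun θ hθ => by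
      rw [h1 θ hθ]
      exact hχ1 θ hθ)
    rw [mean_ext, mean_self]
    refine (hFLDX F K S (fun v => datum Φ T (K := F) v) R Q E x (A * m) hη h q hqQ
      (Gal(K/F) →* ℂˣ) (Function.update χ 1 1) 1 hL1 (fun θ hθ => ⟨hL2 θ hθ, by
        rw [h1 θ hθ]
        exact hχ2 θ hθ⟩) G hG
      (fun w => G (datum Φ T w).1 (datum Φ T w).2) (fun w => hG.le_one _ _)
      (fun w hw => by
        change G (datum Φ T w).1 (datum Φ T w).2 = _
        rw [datum_eq Φ T w hw])).trans (le_of_eq ?_)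
    ring

end Pool.NF
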