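import Pool.Agent.Work.MP_6dc561_nf.I2
import Pool.Agent.Work.MP_6dc561_nf.B_COSG
import Pool.Agent.Work.MP_6dc561_nf.B_SPLX
import Pool.Agent.Work.MP_6dc561_nf.Fin

/-!
# Frobenius classes in the subextensions of a cyclotomic extension (after block FLDX by helper58)
-/

set_option autoImplicit false

open NumberField IsDedekindDomain Ideal Polynomial Finset Module

namespace Pool.NF

open Pool.Agent.Work.MP_6dc561_nt
open Pool.Agent.Work.MP_6dc561_nt.AA (goodUpToQ)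
open Pool.Agent.Work.MP_6dc561_nt.PS (LipR)
open Pool.Agent.Work.MP_6dc561_nt.AB (InCoset Ch Prim ev ann indCh IsCharOf)
open Pool.DS

open Classical in
theorem FROB_two (hN : Stmt_NPR) (hW : Stmt_WB) (F : Type) [Field F] [NumberField F] (S : Set (HeightOneSpectrum (𝓞 F))) {Q : ℕ} {E : Finset Ch} {x : ℕ} {T : ℝ} (hT : 0 ≤ T)
    {q : ℕ} [NeZero q] (hqQ : q ≤ Q) {Θ : Type} [Fintype Θ] {χ : Θ → DirichletCharacter ℂ q} {θ₀ : Θ}
    (hχ0 : χ θ₀ = 1) (c : Θ → ℂ) (hc : ∀ θ, ‖c θ‖ ≤ 1) (hc0 : c θ₀ = 1)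
    (U : HeightOneSpectrum (𝓞 F) → ℝ) (hU : ∀ v, |U v| ≤ Fintype.card Θ)
    (hlaw : ∀ v : HeightOneSpectrum (𝓞 F), (absNorm v.asIdeal).Prime → (absNorm v.asIdeal).Coprime q →
      (U v : ℂ) = ∑ θ : Θ, c θ * χ θ (absNorm v.asIdeal : ZMod q)) (hE : ∀ θ, θ ≠ θ₀ → χ θ ≠ 1 ∧ indCh (χ θ) ∉ E)
    (g : HeightOneSpectrum (𝓞 F) → ℝ) (hg : ∀ v, |g v| ≤ 1) (hsq : Real.sqrt x ≤ T) (hlog : 2 * Real.log q ≤ T)
    (hsum : ∀ y ∈ Prim Q, y ∉ E → ‖∑ v ∈ V S x, (g v : ℂ) * ev y (absNorm v.asIdeal)‖ ≤ T) :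
    |∑ v ∈ V S x, U v * g v - ∑ v ∈ V S x, g v| ≤ 6 * (finrank ℚ F * (Fintype.card Θ : ℝ)) * T := by
  obtain ⟨d, hd⟩ : ∃ d : ℝ, d = (finrank ℚ F : ℝ) := ⟨_, rfl⟩
  obtain ⟨n, hn⟩ : ∃ n : ℝ, n = (Fintype.card Θ : ℝ) := ⟨_, rfl⟩
  have hd1 : 1 ≤ d := by
    have : 0 < finrank ℚ F := finrank_pos
    rw [hd]
    exact_mod_cast this
  have hΘ1 : 1 ≤ Fintype.card Θ := Fintype.card_pos_iff.2 ⟨θ₀⟩
  have hn1 : 1 ≤ n := by
    rw [hn]
    exact_mod_cast hΘ1
  rw [← hd, ← hn]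
  -- the primes which are not coprime to `q`
  have hwb : (((V S x).filter (fun v => ¬ (absNorm v.asIdeal).Coprime q)).card : ℝ) ≤ d * T := by
    refine (hW F S q x).trans ?_
    rw [← hd]
    exact mul_le_mul_of_nonneg_left hlog (by linarith)
  have hnp : (((upTo F x).filter (fun v => ¬ (absNorm v.asIdeal).Prime)).card : ℝ) ≤ d * T := by
    refine (hN F x).trans ?_
    rw [← hd]
    exact mul_le_mul_of_nonneg_left hsq (by linarith)
  have hbad : (((V S x).filter (fun v => ¬ ((absNorm v.asIdeal).Prime ∧ (absNorm v.asIdeal).Coprime q))).card : ℝ) ≤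
      2 * d * T := by
    have h1 : (V S x).filter (fun v => ¬ ((absNorm v.asIdeal).Prime ∧ (absNorm v.asIdeal).Coprime q)) ⊆
        (upTo F x).filter (fun v => ¬ (absNorm v.asIdeal).Prime) ∪
          (V S x).filter (fun v => ¬ (absNorm v.asIdeal).Coprime q) := by
      intro v hv
      rw [mem_filter] at hv
      rw [mem_union, mem_filter, mem_filter]
      by_cases h2 : (absNorm v.asIdeal).Prime
      · exact Or.inr ⟨hv.1, fun h3 => hv.2 ⟨h2, h3⟩⟩
      · refine Or.inl ⟨?_, h2⟩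
        have h4 := hv.1
        unfold V at h4
        exact (mem_filter.1 h4).1
    have h2 := (card_le_card h1).trans (card_union_le _ _)
    have h3 : (((V S x).filter (fun v => ¬ ((absNorm v.asIdeal).Prime ∧ (absNorm v.asIdeal).Coprime q))).card : ℝ) ≤
        (((upTo F x).filter (fun v => ¬ (absNorm v.asIdeal).Prime)).card : ℝ) +
          (((V S x).filter (fun v => ¬ (absNorm v.asIdeal).Coprime q)).card : ℝ) := by
      exact_mod_cast h2
    linarith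
  -- the identity
  obtain ⟨D, hD⟩ : ∃ D : HeightOneSpectrum (𝓞 F) → ℂ, D = fun v => (U v : ℂ) -
      ∑ θ : Θ, c θ * χ θ (absNorm v.asIdeal : ZMod q) := ⟨_, rfl⟩
  have hid : ((∑ v ∈ V S x, U v * g v - ∑ v ∈ V S x, g v : ℝ) : ℂ) =
      ∑ v ∈ V S x, D v * g v +
        (∑ θ ∈ univ.erase θ₀, c θ * ∑ v ∈ V S x, (g v : ℂ) * χ θ (absNorm v.asIdeal : ZMod q) +
        (∑ v ∈ V S x, (g v : ℂ) * χ θ₀ (absNorm v.asIdeal : ZMod q) - ∑ v ∈ V S x, (g v : ℂ) * 1)) := by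
    have h1 : ∑ v ∈ V S x, D v * g v = ∑ v ∈ V S x, (U v : ℂ) * g v -
        ∑ θ : Θ, c θ * ∑ v ∈ V S x, (g v : ℂ) * χ θ (absNorm v.asIdeal : ZMod q) := by
      simp_rw [mul_sum]
      rw [sum_comm, ← sum_sub_distrib]
      refine sum_congr rfl fun v _ => ?_
      rw [hD]
      simp only []
      rw [sub_mul, sum_mul]
      congr 1
      exact sum_congr rfl fun θ _ => by ring
    rw [h1, ← add_sum_erase _ _ (mem_univ θ₀), hc0, one_mul]
    push_cast
    simp only [mul_one]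
    ring
  -- the three parts
  have w1 : ‖∑ v ∈ V S x, D v * g v‖ ≤ 4 * d * n * T := by
    have hb : ∀ v ∈ V S x, ‖D v * g v‖ ≤
        if ¬ ((absNorm v.asIdeal).Prime ∧ (absNorm v.asIdeal).Coprime q) then 2 * n else 0 := by
      intro v _
      by_cases h1 : (absNorm v.asIdeal).Prime ∧ (absNorm v.asIdeal).Coprime q
      · rw [if_neg (not_not.2 h1), hD]
        simp only []
        rw [hlaw v h1.1 h1.2, sub_self, zero_mul, norm_zero]
      · rw [if_pos h1, norm_mul, Complex.norm_real, Real.norm_eq_abs]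
        have h2 : ‖D v‖ ≤ 2 * n := by
          rw [hD]
          refine (norm_sub_le _ _).trans ?_
          have h3 : ‖(U v : ℂ)‖ ≤ n := by
            rw [Complex.norm_real, Real.norm_eq_abs, hn]
            exact hU v
          have h4 : ‖∑ θ : Θ, c θ * χ θ (absNorm v.asIdeal : ZMod q)‖ ≤ n := by
            refine (norm_sum_le_of_le _ fun θ _ => (by
              rw [norm_mul]
              exact mul_le_one₀ (hc θ) (norm_nonneg _) ((χ θ).norm_le_one _) :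
              ‖c θ * χ θ (absNorm v.asIdeal : ZMod q)‖ ≤ 1)).trans ?_
            rw [sum_const, nsmul_eq_mul, mul_one, card_univ, hn]
          linarith
        calc ‖D v‖ * |g v| ≤ (2 * n) * 1 := mul_le_mul h2 (hg v) (abs_nonneg _) (by linarith)
          _ = 2 * n := mul_one _
    refine (norm_sum_le_of_le _ hb).trans ?_
    rw [← sum_filter, sum_const, nsmul_eq_mul]
    calc _ ≤ (2 * d * T) * (2 * n) := mul_le_mul_of_nonneg_right hbad (by linarith)
      _ = 4 * d * n * T := by ring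
  have w2 : ‖∑ θ ∈ univ.erase θ₀, c θ * ∑ v ∈ V S x, (g v : ℂ) * χ θ (absNorm v.asIdeal : ZMod q)‖ ≤
      (n - 1) * (T + d * T) := by
    have hb : ∀ θ ∈ univ.erase θ₀, ‖c θ * ∑ v ∈ V S x, (g v : ℂ) * χ θ (absNorm v.asIdeal : ZMod q)‖ ≤
        T + d * T := by
      intro θ hθ
      rw [norm_mul]
      refine le_trans (mul_le_of_le_one_left (norm_nonneg _) (hc θ)) ?_
      obtain ⟨k1, k2⟩ := hE θ (mem_erase.1 hθ).1
      have h6 := COSG_imprim (V S x) (fun v => absNorm v.asIdeal) g hg (χ θ) (ev (indCh (χ θ))) (AB.ev_norm_le _)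
        fun m hm => AB.ev_indCh (χ θ) hm
      have h7 := hsum _ (AB.indCh_mem_Prim k1 hqQ) k2
      calc ‖∑ v ∈ V S x, (g v : ℂ) * χ θ (absNorm v.asIdeal : ZMod q)‖
          = ‖(∑ v ∈ V S x, (g v : ℂ) * χ θ (absNorm v.asIdeal : ZMod q) -
              ∑ v ∈ V S x, (g v : ℂ) * ev (indCh (χ θ)) (absNorm v.asIdeal)) +
              ∑ v ∈ V S x, (g v : ℂ) * ev (indCh (χ θ)) (absNorm v.asIdeal)‖ := by rw [sub_add_cancel]
        _ ≤ d * T + T := (norm_add_le _ _).trans (add_le_add (h6.trans hwb) h7)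
        _ = T + d * T := add_comm _ _
    refine (norm_sum_le_of_le _ hb).trans (le_of_eq ?_)
    rw [sum_const, nsmul_eq_mul, card_erase_of_mem (mem_univ _), card_univ, Nat.cast_sub hΘ1, hn]
    push_cast
    ring
  have w3 : ‖∑ v ∈ V S x, (g v : ℂ) * χ θ₀ (absNorm v.asIdeal : ZMod q) - ∑ v ∈ V S x, (g v : ℂ) * 1‖ ≤ d * T := by
    have h10 := COSG_imprim (V S x) (fun v => absNorm v.asIdeal) g hg (χ θ₀) (fun _ => 1)
      (fun _ => by rw [norm_one]) (fun m hm => by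
        have : IsUnit (m : ZMod q) := (ZMod.isUnit_iff_coprime m q).2 hm
        rw [hχ0, MulChar.one_apply this])
    exact h10.trans hwb
  have hnorm : ‖((∑ v ∈ V S x, U v * g v - ∑ v ∈ V S x, g v : ℝ) : ℂ)‖ ≤ 6 * (d * n) * T := by
    rw [hid]
    refine (norm_add_le _ _).trans ?_
    have h1 := norm_add_le (∑ θ ∈ univ.erase θ₀, c θ * ∑ v ∈ V S x, (g v : ℂ) * χ θ (absNorm v.asIdeal : ZMod q))
      (∑ v ∈ V S x, (g v : ℂ) * χ θ₀ (absNorm v.asIdeal : ZMod q) - ∑ v ∈ V S x, (g v : ℂ) * 1)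
    have h2 : (n - 1) * (T + d * T) ≤ (n - 1) * (2 * (d * T)) := by
      refine mul_le_mul_of_nonneg_left ?_ (by linarith)
      nlinarith
    have h3 : 0 ≤ d * T := by positivity
    nlinarith
  rwa [Complex.norm_real, Real.norm_eq_abs] at hnorm


/-- The Frobenius of the prime `v` in `Gal(K/F)` is `τ`; here `K` is contained in the cyclotomic extension
`M` of `F` of level `q` and `v` is prime to `q`: an automorphism `σ` of `M` over `F` induces `τ` on `K` and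
raises the `q`-th roots of unity to the power `q_v`. -/
def FrobIs {F : Type} [Field F] [NumberField F] (K M : Type) [Field K] [Field M] [Algebra F K] [Algebra K M]
    [Algebra F M] (q : ℕ) (τ : Gal(K/F)) (v : HeightOneSpectrum (𝓞 F)) : Prop :=
  (absNorm v.asIdeal).Coprime q ∧ ∃ σ : Gal(M/F),
    (∀ z : K, σ (algebraMap K M z) = algebraMap K M (τ z)) ∧
    ∀ ζ : M, ζ ^ q = 1 → σ ζ = ζ ^ absNorm v.asIdeal

section

variable {F K M : Type} [Field F] [NumberField F] [Field K] [NumberField K] [Field M]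
  [NumberField M] [Algebra F K] [Algebra K M] [Algebra F M] [IsScalarTower F K M] (q : ℕ) [NeZero q]
  [IsCyclotomicExtension {q} F M]

omit [IsScalarTower F K M] [NumberField K] in
theorem frob_iff {σ : Gal(M/F)} {τ : Gal(K/F)} {v : HeightOneSpectrum (𝓞 F)}
    (hvq : (absNorm v.asIdeal).Coprime q)
    (h2 : ∀ z : K, σ (algebraMap K M z) = algebraMap K M (τ z))
    (h3 : ∀ ζ : M, ζ ^ q = 1 → σ ζ = ζ ^ absNorm v.asIdeal) (τ₀ : Gal(K/F)) :
    FrobIs K M q τ₀ v ↔ τ₀⁻¹ * τ = 1 := by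
  constructor
  · rintro ⟨-, σ', h4, h5⟩
    have h6 : σ' = σ := by
      refine IsCyclotomicExtension.algEquiv_eq_of_apply_eq {q} F M ?_
      intro n hn hn0
      rw [Set.mem_singleton_iff] at hn
      subst hn
      have hζ := IsCyclotomicExtension.zeta_spec n F M
      exact ⟨_, hζ, by rw [h5 _ hζ.pow_eq_one, h3 _ hζ.pow_eq_one]⟩
    have h7 : τ = τ₀ := by
      ext z
      apply (algebraMap K M).injective
      rw [← h2, ← h4, h6]
    rw [h7, inv_mul_cancel]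
  · intro h
    have h7 : τ = τ₀ := by
      have := congrArg (fun g => τ₀ * g) h
      simpa using this
    subst h7
    exact ⟨hvq, σ, h2, h3⟩

open Classical in
theorem frob_law (hO : Stmt_ORT) [Fintype (Gal(K/F) →* ℂˣ)]
    (χ : (Gal(K/F) →* ℂˣ) → DirichletCharacter ℂ q) (h1 : χ 1 = 1)
    (hχ : ∀ θ, θ ≠ 1 → Induces F K M q (χ θ) θ) (τ₀ : Gal(K/F)) (v : HeightOneSpectrum (𝓞 F))
    (hvp : (absNorm v.asIdeal).Prime) (hvq : (absNorm v.asIdeal).Coprime q) :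
    (((if FrobIs K M q τ₀ v then (finrank F K : ℝ) else 0 : ℝ)) : ℂ) =
      ∑ θ : Gal(K/F) →* ℂˣ, ((θ τ₀⁻¹ : ℂˣ) : ℂ) * χ θ (absNorm v.asIdeal : ZMod q) := by
  have habM : IsAbelianGalois F M := IsCyclotomicExtension.isAbelianGalois {q} F M
  have habK : IsAbelianGalois F K := IsAbelianGalois.tower_bot F K M
  letI : CommGroup Gal(K/F) :=
    { (inferInstance : Group Gal(K/F)) with mul_comm := fun a b => mul_comm' a b }
  obtain ⟨hf, hO'⟩ := hO Gal(K/F)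
  obtain ⟨σ, τ, h2, h3, -, -⟩ := SPLX.law (F := F) (K := K) (M := M) q v rfl hvp hvq
  have h6 : ∑ θ : Gal(K/F) →* ℂˣ, ((θ τ₀⁻¹ : ℂˣ) : ℂ) * χ θ (absNorm v.asIdeal : ZMod q) =
      ∑ θ : Gal(K/F) →* ℂˣ, ((θ (τ₀⁻¹ * τ) : ℂˣ) : ℂ) := by
    refine Finset.sum_congr rfl fun θ _ => ?_
    rw [map_mul, Units.val_mul]
    congr 1
    by_cases hθ : θ = 1
    · subst hθ
      have h7 : IsUnit ((absNorm v.asIdeal : ℕ) : ZMod q) := (ZMod.isUnit_iff_coprime _ _).2 hvq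
      rw [h1, MulChar.one_apply h7]
      simp
    · exact hχ θ hθ σ τ _ h2 h3
  rw [h6, (hO').2 (τ₀⁻¹ * τ)]
  by_cases hτ : τ₀⁻¹ * τ = 1
  · rw [if_pos hτ, if_pos ((frob_iff q hvq h2 h3 τ₀).2 hτ), IsGalois.card_aut_eq_finrank F K]
    push_cast
    rfl
  · rw [if_neg hτ, if_neg (fun h => hτ ((frob_iff q hvq h2 h3 τ₀).1 h)), Complex.ofReal_zero]

end

open Classical in
/-- Frobenius classes -/
theorem frob_main (hN : Stmt_NPR) (hW : Stmt_WB) (hO : Stmt_ORT) (hSPLX : Stmt_SPLX)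
    (F K M : Type) [Field F] [NumberField F] [Field K] [NumberField K] [Field M]
    [NumberField M] [Algebra F K] [Algebra K M] [Algebra F M] [IsScalarTower F K M] (q : ℕ) [NeZero q]
    [IsCyclotomicExtension {q} F M] (S : Set (HeightOneSpectrum (𝓞 F)))
    (t : HeightOneSpectrum (𝓞 F) → ℝ × ℝ) (R : ℝ) (Q : ℕ) (E : Finset Ch) (x : ℕ) (η : ℝ) (hη : 0 ≤ η)
    (hgood : 2 ≤ η ∨ GoodF S t R Q E x η) (hqQ : q ≤ Q)
    (hY : ∀ θ : Gal(K/F) →* ℂˣ, θ ≠ 1 → ∃ χ : DirichletCharacter ℂ q, Induces F K M q χ θ ∧ indCh χ ∉ E)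
    (τ₀ : Gal(K/F)) (G : ℝ → ℝ → ℝ) (hLip : LipR R G) :
    |(∑ v ∈ (V S x).filter (fun v => FrobIs K M q τ₀ v), G (t v).1 (t v).2) /
        (((V S x).filter (fun v => FrobIs K M q τ₀ v)).card : ℝ) -
      avg S (fun v => G (t v).1 (t v).2) x| ≤ 32 * finrank ℚ F * finrank F K * η := by
  obtain ⟨hfin, hlaw⟩ := hSPLX F K M q
  let _ : Fintype (Gal(K/F) →* ℂˣ) := Fintype.ofFinite _
  choose! χ hχ1 hχ2 using hY
  have h1 : ∀ θ : Gal(K/F) →* ℂˣ, θ ≠ 1 → (Function.update χ 1 1) θ = χ θ := fun θ hθ =>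
    Function.update_of_ne hθ _ _
  have hind : ∀ θ, θ ≠ 1 → Induces F K M q ((Function.update χ 1 1) θ) θ := fun θ hθ => by
    rw [h1 θ hθ]
    exact hχ1 θ hθ
  obtain ⟨hL1, hL2⟩ := hlaw (Function.update χ 1 1) (Function.update_self _ _ _) hind
  have hcard : Fintype.card (Gal(K/F) →* ℂˣ) = finrank F K := hL1.2.1
  have hE : ∀ θ, θ ≠ 1 → (Function.update χ 1 1) θ ≠ 1 ∧ indCh ((Function.update χ 1 1) θ) ∉ E :=
    fun θ hθ => ⟨hL2 θ hθ, by rw [h1 θ hθ]; exact hχ2 θ hθ⟩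
  obtain ⟨d, hd⟩ : ∃ d : ℝ, d = (finrank ℚ F : ℝ) := ⟨_, rfl⟩
  obtain ⟨n, hn⟩ : ∃ n : ℝ, n = (finrank F K : ℝ) := ⟨_, rfl⟩
  have hd1 : 1 ≤ d := by
    have : 0 < finrank ℚ F := finrank_pos
    rw [hd]
    exact_mod_cast this
  have hn1 : 1 ≤ n := by
    rw [hn, ← hcard]
    exact_mod_cast Fintype.card_pos_iff.2 ⟨1⟩
  have hdn : 1 ≤ d * n := by nlinarith
  have hsum1 : ∀ {U : Type} (A : Finset U) (g : U → ℝ), (∀ u, |g u| ≤ 1) → |∑ u ∈ A, g u| ≤ A.card := by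
    intro U A g hg
    calc |∑ u ∈ A, g u| ≤ ∑ u ∈ A, |g u| := abs_sum_le_sum_abs _ _
      _ ≤ ∑ _u ∈ A, (1 : ℝ) := sum_le_sum fun u _ => hg u
      _ = A.card := by rw [sum_const, nsmul_eq_mul, mul_one]
  have havg1 : ∀ {U : Type} (A : Finset U) (g : U → ℝ), (∀ u, |g u| ≤ 1) → |(∑ u ∈ A, g u) / (A.card : ℝ)| ≤ 1 := by
    intro U A g hg
    rw [abs_div, Nat.abs_cast]
    exact div_le_one_of_le₀ (hsum1 A g hg) (Nat.cast_nonneg _)
  obtain ⟨g, hg⟩ : ∃ g : HeightOneSpectrum (𝓞 F) → ℝ, g = fun v => G (t v).1 (t v).2 := ⟨_, rfl⟩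
  have hg1 : ∀ v, |g v| ≤ 1 := fun v => by
    rw [hg]
    exact hLip.le_one _ _
  have hgg : ∀ v, G (t v).1 (t v).2 = g v := fun v => by rw [hg]
  simp only [hgg]
  have hgf : (fun v => g v) = g := rfl
  rw [← hd, ← hn]
  obtain ⟨A, hA⟩ : ∃ A : Finset (HeightOneSpectrum (𝓞 F)), A = (V S x).filter (fun v => FrobIs K M q τ₀ v) :=
    ⟨_, rfl⟩
  rw [← hA]
  rcases hgood with h2 | hgd
  · have a1 := havg1 A g hg1
    have a2 : |avg S (fun v => g v) x| ≤ 1 := havg1 (V S x) g hg1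
    have a3 := abs_sub ((∑ w ∈ A, g w) / (A.card : ℝ)) (avg S (fun v => g v) x)
    have a4 : 2 ≤ d * n * η := by nlinarith
    have a5 : 32 * d * n * η = 32 * (d * n * η) := by ring
    rw [a5]
    linarith
  obtain ⟨N, hNN⟩ : ∃ N : ℝ, N = ((V S x).card : ℝ) := ⟨_, rfl⟩
  have hN0 : 0 < N := by rw [hNN]; exact_mod_cast hgd.pos
  have hηN : 0 ≤ η * N := by positivity
  have hq1 : 1 ≤ q := Nat.one_le_iff_ne_zero.2 (NeZero.ne q)
  have hlog : 2 * Real.log q ≤ η * N := by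
    have h1 : Real.log q ≤ Real.log Q := Real.log_le_log (by exact_mod_cast hq1) (by exact_mod_cast hqQ)
    have h2 := hgd.log_le
    rw [← hNN] at h2
    linarith
  have hsq : Real.sqrt x ≤ η * N := by
    rw [hNN]
    exact hgd.sqrt_le
  have hc : ∀ θ : Gal(K/F) →* ℂˣ, ‖((θ τ₀⁻¹ : ℂˣ) : ℂ)‖ ≤ 1 := by
    intro θ
    have h3 : ((θ τ₀⁻¹ : ℂˣ) : ℂ) ^ Nat.card Gal(K/F) = 1 := by
      rw [← Units.val_pow_eq_pow_val, ← map_pow, pow_card_eq_one', map_one, Units.val_one]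
    exact (Complex.norm_eq_one_of_pow_eq_one h3 Nat.card_pos.ne').le
  have hU : ∀ v : HeightOneSpectrum (𝓞 F), |(if FrobIs K M q τ₀ v then (finrank F K : ℝ) else 0)| ≤
      Fintype.card (Gal(K/F) →* ℂˣ) := by
    intro v
    rw [hcard]
    split_ifs
    · rw [Nat.abs_cast]
    · rw [abs_zero]
      exact Nat.cast_nonneg _
  have b1 := FROB_two hN hW F S hηN hqQ (Function.update_self _ _ _) (fun θ : Gal(K/F) →* ℂˣ =>
    ((θ τ₀⁻¹ : ℂˣ) : ℂ)) hc (by simp) (fun v => if FrobIs K M q τ₀ v then (finrank F K : ℝ) else 0) hU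
    (fun v hvp hvq => frob_law q hO (Function.update χ 1 1) (Function.update_self _ _ _) hind τ₀ v hvp hvq)
    hE g hg1 hsq hlog (fun y hy hyE => by
      have := hgd.sum y hy hyE G hLip
      rw [← hNN] at this
      rw [hg]
      exact this)
  have b2 := FROB_two hN hW F S hηN hqQ (Function.update_self _ _ _) (fun θ : Gal(K/F) →* ℂˣ =>
    ((θ τ₀⁻¹ : ℂˣ) : ℂ)) hc (by simp) (fun v => if FrobIs K M q τ₀ v then (finrank F K : ℝ) else 0) hU
    (fun v hvp hvq => frob_law q hO (Function.update χ 1 1) (Function.update_self _ _ _) hind τ₀ v hvp hvq)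
    hE (fun _ => 1) (fun _ => by rw [abs_one]) hsq hlog (fun y hy hyE => by
      have := hgd.one_sum y hy hyE
      rw [← hNN] at this
      simpa using this)
  have e0 : ∀ g' : HeightOneSpectrum (𝓞 F) → ℝ,
      ∑ v ∈ V S x, (if FrobIs K M q τ₀ v then (finrank F K : ℝ) else 0) * g' v = n * ∑ v ∈ A, g' v := by
    intro g'
    rw [hA, sum_filter, mul_sum]
    refine sum_congr rfl fun v _ => ?_
    split_ifs
    · rw [hn]
    · ring
  simp only [e0] at b1 b2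
  rw [hcard, ← hd, ← hn] at b1 b2
  have e1 : ∑ v ∈ V S x, (1 : ℝ) = N := by rw [sum_const, nsmul_eq_mul, mul_one, hNN]
  have e2 : ∑ w ∈ A, (1 : ℝ) = A.card := by rw [sum_const, nsmul_eq_mul, mul_one]
  rw [e1, e2] at b2
  have hn0 : 0 < n := by linarith
  have hSN : |∑ v ∈ V S x, g v| ≤ N := by
    rw [hNN]
    exact hsum1 (V S x) g hg1
  have hSA : |n * ∑ v ∈ A, g v| ≤ n * A.card := by
    rw [abs_mul, abs_of_pos hn0]
    exact mul_le_mul_of_nonneg_left (hsum1 A g hg1) hn0.le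
  have key := AB.ratio hN0 (mul_nonneg hn0.le (Nat.cast_nonneg A.card)) hSN hSA
    (b1.trans (le_of_eq (by ring : 6 * (d * n) * (η * N) = 6 * (d * n) * η * N)))
    (b2.trans (le_of_eq (by ring : 6 * (d * n) * (η * N) = 6 * (d * n) * η * N)))
  rw [mul_div_mul_left _ _ hn0.ne'] at key
  have havg : avg S (fun v => g v) x = (∑ v ∈ V S x, g v) / N := by
    rw [hNN]
    rfl
  rw [havg]
  refine key.trans ?_
  have h5 : 0 ≤ d * n * η := by positivity
  nlinarith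

end Pool.NF
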