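import Pool.Agent.Work.MP_6dc561_nt.AB.Final
import Pool.Agent.Work.MP_6dc561_sv.Comp

/-!
# Characters, residue classes and abelian extensions over a number field: interface
-/

set_option autoImplicit false

open NumberField IsDedekindDomain Ideal Polynomial Finset Module

namespace Pool.NF

open Pool.Agent.Work.MP_6dc561_nt
open Pool.Agent.Work.MP_6dc561_nt.AA (goodUpToQ)
open Pool.Agent.Work.MP_6dc561_nt.PS (LipR)
open Pool.Agent.Work.MP_6dc561_nt.AB (InCoset Ch Prim ev ann indCh IsCharOf)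
open Pool.DS

/-- the auxiliary polynomial; its good primes are the primes other than `2` and `5` -/
noncomputable def f0 : ℤ[X] := X ^ 5 - 1

/-- the primes other than `2` and `5` up to `x` -/
noncomputable def pr (x : ℕ) : Finset ℕ := goodUpToQ f0 1 x

open Classical in
/-- the primes of norm at most `x` outside `S` -/
noncomputable def V {F : Type} [Field F] [NumberField F] (S : Set (HeightOneSpectrum (𝓞 F))) (x : ℕ) :
    Finset (HeightOneSpectrum (𝓞 F)) :=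
  (upTo F x).filter (fun v => v ∉ S)

open Classical in
/-- the primes of norm `p` outside `S` -/
noncomputable def fib {F : Type} [Field F] [NumberField F] (S : Set (HeightOneSpectrum (𝓞 F))) (p : ℕ) :
    Finset (HeightOneSpectrum (𝓞 F)) :=
  (upTo F p).filter (fun v => v ∉ S ∧ absNorm v.asIdeal = p)

/-- what is known at the point `x` for a family of sequences -/
structure Good {ι : Type} (α β : ι → ℕ → ℝ) (R : ℝ) (Q : ℕ) (E : Finset Ch) (x : ℕ) (η : ℝ) : Prop where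
  pos : 0 < (pr x).card
  log_le : 2 * Real.log Q ≤ η * (pr x).card
  sqrt_le : Real.sqrt x ≤ η * (pr x).card
  sum : ∀ j, ∀ y ∈ Prim Q, y ∉ E → ∀ G : ℝ → ℝ → ℝ, LipR R G →
    ‖∑ p ∈ pr x, (G (α j p) (β j p) : ℂ) * ev y p‖ ≤ η * (pr x).card

/-- **GEN**: families of arbitrary sequences against primitive characters -/
def Stmt_GEN : Prop := ∀ (ι : Type) [Fintype ι] [Nonempty ι] (α β : ι → ℕ → ℝ) (R δ κ : ℝ), 0 < κ →
  184 * κ ≤ δ → 120 * κ ≤ 1 →
  ∃ A : ℝ, 1 ≤ A ∧ ∀ Q : ℕ, 2 ≤ Q → ∃ E : Finset Ch,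
    (E.card : ℝ) ≤ A * (Q : ℝ) ^ δ ∧ E ⊆ Prim Q ∧
    ∀ x : ℕ, (Real.log Q) ^ (1 / κ) ≤ x → (x : ℝ) ≤ Real.exp ((Q : ℝ) ^ κ) →
      1 ≤ x ∧ (2 ≤ A * (min (x : ℝ) Q) ^ (-κ) ∨ Good α β R Q E x (A * (min (x : ℝ) Q) ^ (-κ)))

/-- **COL**: at most `[F : ℚ]` primes of norm `p`, coloured -/
def Stmt_COL : Prop := ∀ (F : Type) [Field F] [NumberField F],
  ∃ e : HeightOneSpectrum (𝓞 F) → Fin (finrank ℚ F),
    ∀ v w : HeightOneSpectrum (𝓞 F), (absNorm v.asIdeal).Prime →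
      absNorm v.asIdeal = absNorm w.asIdeal → e v = e w → v = w

open Classical in
/-- **NPR**: few primes of degree greater than one -/
def Stmt_NPR : Prop := ∀ (F : Type) [Field F] [NumberField F] (x : ℕ),
  (((upTo F x).filter (fun v => ¬ (absNorm v.asIdeal).Prime)).card : ℝ) ≤ finrank ℚ F * Real.sqrt x

/-- **SUMV**: sums over the primes of `F` as sums over the rational primes -/
def Stmt_SUMV : Prop := ∀ (F : Type) [Field F] [NumberField F] (S : Set (HeightOneSpectrum (𝓞 F)))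
  (h : HeightOneSpectrum (𝓞 F) → ℂ), (∀ v, ‖h v‖ ≤ 1) → ∀ x : ℕ, 1 ≤ x →
    ‖∑ v ∈ V S x, h v - ∑ p ∈ pr x, ∑ v ∈ fib S p, h v‖ ≤ 3 * finrank ℚ F * Real.sqrt x

/-- **DEN**: the number of primes of `F` -/
def Stmt_DEN : Prop := ∀ (F : Type) [Field F] [NumberField F] (S : Set (HeightOneSpectrum (𝓞 F))),
  S.Finite → ∃ (B : ℝ) (X : ℕ), 1 ≤ B ∧ 1 ≤ X ∧ ∀ x : ℕ, X ≤ x →
    ((pr x).card : ℝ) ≤ B * ((V S x).card : ℝ)

/-- what is known at the point `x` for the primes of `F` -/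
structure GoodF {F : Type} [Field F] [NumberField F] (S : Set (HeightOneSpectrum (𝓞 F)))
    (t : HeightOneSpectrum (𝓞 F) → ℝ × ℝ) (R : ℝ) (Q : ℕ) (E : Finset Ch) (x : ℕ) (η : ℝ) : Prop where
  pos : 0 < (V S x).card
  log_le : 2 * Real.log Q ≤ η * (V S x).card
  sqrt_le : Real.sqrt x ≤ η * (V S x).card
  one_sum : ∀ y ∈ Prim Q, y ∉ E → ‖∑ v ∈ V S x, ev y (absNorm v.asIdeal)‖ ≤ η * (V S x).card
  sum : ∀ y ∈ Prim Q, y ∉ E → ∀ G : ℝ → ℝ → ℝ, LipR R G →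
    ‖∑ v ∈ V S x, (G (t v).1 (t v).2 : ℂ) * ev y (absNorm v.asIdeal)‖ ≤ η * (V S x).card

/-- **CORE**: the character theorem over `F` -/
def Stmt_CORE : Prop := ∀ (F : Type) [Field F] [NumberField F] (S : Set (HeightOneSpectrum (𝓞 F))),
  S.Finite → ∀ (t : HeightOneSpectrum (𝓞 F) → ℝ × ℝ) (R δ κ : ℝ), 0 < κ → 184 * κ ≤ δ → 120 * κ ≤ 1 →
  ∃ A : ℝ, 1 ≤ A ∧ ∀ Q : ℕ, 2 ≤ Q → ∃ E : Finset Ch,
    (E.card : ℝ) ≤ A * (Q : ℝ) ^ δ ∧ E ⊆ Prim Q ∧
    ∀ x : ℕ, (Real.log Q) ^ (1 / κ) ≤ x → (x : ℝ) ≤ Real.exp ((Q : ℝ) ^ κ) →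
      1 ≤ x ∧ (2 ≤ A * (min (x : ℝ) Q) ^ (-κ) ∨ GoodF S t R Q E x (A * (min (x : ℝ) Q) ^ (-κ)))

open Classical in
/-- **COSG**: sums over a coset, abstract form of `AB.coset_sum` -/
def Stmt_COSG : Prop := ∀ (U : Type) (A : Finset U) (N : U → ℕ) (g : U → ℝ) (q Q : ℕ) [NeZero q]
  (E : Finset Ch) (T W : ℝ) (H : Subgroup (ZMod q)ˣ) (a : (ZMod q)ˣ), (∀ u, |g u| ≤ 1) → q ≤ Q → 0 ≤ T →
  (∀ y ∈ Prim Q, y ∉ E → ‖∑ u ∈ A, (g u : ℂ) * ev y (N u)‖ ≤ T) →
  (((A.filter (fun u => ¬ (N u).Coprime q)).card : ℝ) ≤ W) →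
  (∀ χ ∈ ann H, χ ≠ 1 → indCh χ ∉ E) →
  |H.index * ∑ u ∈ A.filter (fun u => InCoset H a (N u)), g u - ∑ u ∈ A, g u| ≤ H.index * (T + W)

open Classical in
/-- **WB**: few primes above the divisors of `q` -/
def Stmt_WB : Prop := ∀ (F : Type) [Field F] [NumberField F] (S : Set (HeightOneSpectrum (𝓞 F)))
  (q : ℕ) [NeZero q] (x : ℕ),
  (((V S x).filter (fun v => ¬ (absNorm v.asIdeal).Coprime q)).card : ℝ) ≤ finrank ℚ F * (2 * Real.log q)

/-- the average over the primes of `F` -/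
noncomputable def avg {F : Type} [Field F] [NumberField F] (S : Set (HeightOneSpectrum (𝓞 F)))
    (g : HeightOneSpectrum (𝓞 F) → ℝ) (x : ℕ) : ℝ :=
  (∑ v ∈ V S x, g v) / (V S x).card

open Classical in
/-- the average over the primes of `F` with norm in a coset -/
noncomputable def cosAvg {F : Type} [Field F] [NumberField F] (S : Set (HeightOneSpectrum (𝓞 F))) {q : ℕ}
    (H : Subgroup (ZMod q)ˣ) (a : (ZMod q)ˣ) (g : HeightOneSpectrum (𝓞 F) → ℝ) (x : ℕ) : ℝ :=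
  (∑ v ∈ (V S x).filter (fun v => InCoset H a (absNorm v.asIdeal)), g v) /
    ((V S x).filter (fun v => InCoset H a (absNorm v.asIdeal))).card

/-- **COSF**: residue classes over `F` -/
def Stmt_COSF : Prop := ∀ (F : Type) [Field F] [NumberField F] (S : Set (HeightOneSpectrum (𝓞 F)))
  (t : HeightOneSpectrum (𝓞 F) → ℝ × ℝ) (R : ℝ) (Q : ℕ) (E : Finset Ch) (x : ℕ) (η : ℝ), 0 ≤ η →
  (2 ≤ η ∨ GoodF S t R Q E x η) → ∀ (q : ℕ) [NeZero q], q ≤ Q → ∀ (H : Subgroup (ZMod q)ˣ),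
  (∀ χ ∈ ann H, χ ≠ 1 → indCh χ ∉ E) → ∀ (a : (ZMod q)ˣ) (G : ℝ → ℝ → ℝ), LipR R G →
  |cosAvg S H a (fun v => G (t v).1 (t v).2) x - avg S (fun v => G (t v).1 (t v).2) x| ≤
    8 * finrank ℚ F * H.index * η

open Classical in
/-- `K` is the class field over `F` of the subgroup `H` of the residue classes modulo `q` -/
def Splits (F K : Type) [Field F] [NumberField F] [Field K] [NumberField K] [Algebra F K] (q : ℕ)
    (H : Subgroup (ZMod q)ˣ) : Prop :=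
  finrank F K = H.index ∧ ∀ v : HeightOneSpectrum (𝓞 F), (absNorm v.asIdeal).Prime →
    (absNorm v.asIdeal).Coprime q →
    degOne F K v = if InCoset H 1 (absNorm v.asIdeal) then H.index else 0

open Classical in
/-- **FLDG**: sums over the primes of a class field -/
def Stmt_FLDG : Prop := ∀ (F K : Type) [Field F] [NumberField F] [Field K] [NumberField K] [Algebra F K]
  (S : Set (HeightOneSpectrum (𝓞 F))) (q : ℕ) [NeZero q] (H : Subgroup (ZMod q)ˣ) (x : ℕ)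
  (h : HeightOneSpectrum (𝓞 K) → ℝ) (g : HeightOneSpectrum (𝓞 F) → ℝ), (∀ w, |h w| ≤ 1) →
  (∀ v, |g v| ≤ 1) →
  (∀ w, absNorm w.asIdeal = absNorm (below F w).asIdeal → h w = g (below F w)) → Splits F K q H →
  |∑ w ∈ (upTo K x).filter (fun w => below F w ∉ S), h w -
    H.index * ∑ v ∈ (V S x).filter (fun v => InCoset H 1 (absNorm v.asIdeal)), g v| ≤
    3 * finrank ℚ K * (Real.sqrt x + 2 * Real.log q)

open Classical in
/-- **FLDF**: class fields over `F` -/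
def Stmt_FLDF : Prop := ∀ (F K : Type) [Field F] [NumberField F] [Field K] [NumberField K] [Algebra F K]
  (S : Set (HeightOneSpectrum (𝓞 F)))
  (t : HeightOneSpectrum (𝓞 F) → ℝ × ℝ) (R : ℝ) (Q : ℕ) (E : Finset Ch) (x : ℕ) (η : ℝ), 0 ≤ η →
  (2 ≤ η ∨ GoodF S t R Q E x η) → ∀ (q : ℕ) [NeZero q], q ≤ Q → ∀ (H : Subgroup (ZMod q)ˣ),
  (∀ χ ∈ ann H, χ ≠ 1 → indCh χ ∉ E) → Splits F K q H → ∀ (G : ℝ → ℝ → ℝ), LipR R G →
  ∀ h : HeightOneSpectrum (𝓞 K) → ℝ, (∀ w, |h w| ≤ 1) →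
  (∀ w, absNorm w.asIdeal = absNorm (below F w).asIdeal →
    h w = G (t (below F w)).1 (t (below F w)).2) →
  |(∑ w ∈ (upTo K x).filter (fun w => below F w ∉ S), h w) /
      (((upTo K x).filter (fun w => below F w ∉ S)).card : ℝ) -
    avg S (fun v => G (t v).1 (t v).2) x| ≤ 32 * finrank ℚ F * H.index * η

/-- **SPL**: the field generated by `F` and a subfield `L` of the cyclotomic field, linearly disjoint
from `F`, is the class field over `F` of the subgroup of `L` -/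
def Stmt_SPL : Prop := ∀ (F K L : Type) [Field F] [NumberField F] [Field K] [NumberField K] [Field L]
  [NumberField L] [Algebra F K] [Algebra L K] (q : ℕ) [NeZero q],
  Nonempty (L →+* CyclotomicField q ℚ) →
  IntermediateField.adjoin F (Set.range (algebraMap L K)) = ⊤ → finrank F K = finrank ℚ L →
  ∃ H : Subgroup (ZMod q)ˣ, H.index = finrank ℚ L ∧ Splits F K q H ∧
    ∀ χ ∈ ann H, IsCharOf L (indCh χ).2

end Pool.NF
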